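import Pool.Agent.H34.CQ.Unified

/-!
Circular permutations of `1, …, n` all of whose numbers `2ab + 1` are free of prime factors up to
`(log n) ^ (6/5)`.
-/

set_option autoImplicit false

namespace Pool.Agent.H34.CR

open Finset Real Pool.Agent.H34.CP Pool.Agent.H34.CQ

/-- the primes in a dyadic block, with a better constant -/
theorem dyadic2 (j : ℕ) (hj : 1 ≤ j) :
    ∑ p ∈ (Ioc (2 ^ j) (2 ^ (j + 1))).filter Nat.Prime, (1 / (p : ℝ)) ≤ 2 / j := by
  set F := (Ioc (2 ^ j) (2 ^ (j + 1))).filter Nat.Prime with hF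
  have hchoose : (∏ p ∈ F, p) ∣ (2 ^ (j + 1)).choose (2 ^ j) := by
    apply prod_primes_dvd
    · exact fun p hp => (mem_filter.1 hp).2.prime
    · intro p hp
      rw [hF, mem_filter, mem_Ioc] at hp
      have h2 : 2 ^ (j + 1) = 2 ^ j + 2 ^ j := by ring
      apply hp.2.dvd_choose hp.1.1 _ hp.1.2
      omega
  have h1 : (2 ^ j) ^ F.card ≤ 2 ^ (2 ^ (j + 1)) := by
    calc (2 ^ j) ^ F.card = ∏ p ∈ F, 2 ^ j := by rw [prod_const]
      _ ≤ ∏ p ∈ F, p := prod_le_prod' fun p hp => by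
          have := (mem_Ioc.1 (mem_filter.1 hp).1).1
          omega
      _ ≤ (2 ^ (j + 1)).choose (2 ^ j) := by
          apply Nat.le_of_dvd _ hchoose
          apply Nat.choose_pos
          exact Nat.pow_le_pow_right (by norm_num) (by omega)
      _ ≤ 2 ^ (2 ^ (j + 1)) := Nat.choose_le_two_pow _ _
  have h2 : j * F.card ≤ 2 * 2 ^ j := by
    rw [← pow_mul] at h1
    have h3 := (Nat.pow_le_pow_iff_right (by norm_num : 1 < 2)).1 h1
    calc j * F.card ≤ 2 ^ (j + 1) := h3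
      _ = 2 * 2 ^ j := by ring
  have hjR : (0 : ℝ) < j := by exact_mod_cast hj
  calc ∑ p ∈ F, (1 / (p : ℝ)) ≤ ∑ p ∈ F, (1 / (2 : ℝ) ^ j) := by
        apply sum_le_sum
        intro p hp
        have := (mem_Ioc.1 (mem_filter.1 hp).1).1
        apply one_div_le_one_div_of_le (by positivity)
        have h5 : ((2 ^ j : ℕ) : ℝ) ≤ p := by exact_mod_cast this.le
        simpa using h5
    _ = F.card / (2 : ℝ) ^ j := by rw [sum_const, nsmul_eq_mul]; ring
    _ ≤ 2 / j := by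
        rw [div_le_div_iff₀ (by positivity) hjR]
        have : ((j * F.card : ℕ) : ℝ) ≤ ((2 * 2 ^ j : ℕ) : ℝ) := by exact_mod_cast h2
        push_cast at this
        linarith

/-- the primes between `z0` and `z` -/
theorem sum_between (z0 z a b : ℕ) (ha1 : 1 ≤ a) (ha : 2 ^ a ≤ z0) (hb : z < 2 ^ (b + 1))
    (hz : z0 ≤ z) :
    ∑ p ∈ (Ioc z0 z).filter Nat.Prime, (1 / (p : ℝ)) ≤ ((b : ℝ) + 1 - a) * (2 / a) := by
  have haR : (0 : ℝ) < a := by exact_mod_cast ha1
  have hab : a ≤ b := by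
    by_contra hcon
    have h1 : 2 ^ (b + 1) ≤ 2 ^ a := Nat.pow_le_pow_right (by norm_num) (by omega)
    omega
  have hmaps : ∀ p ∈ (Ioc z0 z).filter Nat.Prime, Nat.log 2 (p - 1) ∈ Icc a b := by
    intro p hp
    rw [mem_filter, mem_Ioc] at hp
    rw [mem_Icc]
    constructor
    · apply Nat.le_log_of_pow_le (by norm_num)
      omega
    · have : Nat.log 2 (p - 1) < b + 1 := Nat.log_lt_of_lt_pow (by
        have : 1 ≤ 2 ^ a := Nat.one_le_two_pow
        omega) (by omega)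
      omega
  rw [← sum_fiberwise_of_maps_to hmaps]
  calc ∑ j ∈ Icc a b, ∑ p ∈ ((Ioc z0 z).filter Nat.Prime).filter
        (fun p => Nat.log 2 (p - 1) = j), (1 / (p : ℝ))
      ≤ ∑ j ∈ Icc a b, (2 / (a : ℝ)) := by
        apply sum_le_sum
        intro j hj
        rw [mem_Icc] at hj
        have h1 : ∑ p ∈ ((Ioc z0 z).filter Nat.Prime).filter
            (fun p => Nat.log 2 (p - 1) = j), (1 / (p : ℝ)) ≤
            ∑ p ∈ (Ioc (2 ^ j) (2 ^ (j + 1))).filter Nat.Prime, (1 / (p : ℝ)) := by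
          apply sum_le_sum_of_subset_of_nonneg
          · intro p hp
            rw [mem_filter, mem_filter, mem_Ioc] at hp
            rw [mem_filter, mem_Ioc]
            have h2 : 1 ≤ 2 ^ a := Nat.one_le_two_pow
            have h3 : 2 ^ j ≤ p - 1 := by
              rw [← hp.2]
              exact Nat.pow_log_le_self 2 (by omega)
            have h4 : p - 1 < 2 ^ (j + 1) := by
              rw [← hp.2]
              exact Nat.lt_pow_succ_log_self (by norm_num) _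
            exact ⟨⟨by omega, by omega⟩, hp.1.2⟩
          · intro p _ _
            positivity
        refine h1.trans ((dyadic2 j (by omega)).trans ?_)
        have h5 : (a : ℝ) ≤ j := by exact_mod_cast hj.1
        exact div_le_div_of_nonneg_left (by norm_num) haR h5
    _ = ((b : ℝ) + 1 - a) * (2 / a) := by
        rw [sum_const, Nat.card_Icc, nsmul_eq_mul, Nat.cast_sub (by omega)]
        push_cast
        ring

/-- few partners in a class with a prime factor between `z0` and `z` -/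
theorem card_between (M n x c z0 z : ℕ) (hM : 0 < M) (hMz : ∀ p : ℕ, p.Prime → z0 < p → ¬ p ∣ M) :
    (((Icc 1 n).filter (fun k => k % M = c ∧ ∃ p ∈ (Ioc z0 z).filter Nat.Prime,
      p ∣ 2 * k * x + 1)).card : ℝ) ≤
      (n : ℝ) / M * (∑ p ∈ (Ioc z0 z).filter Nat.Prime, (1 / (p : ℝ))) + z := by
  have hMR : (0 : ℝ) < M := by exact_mod_cast hM
  have h1 : (Icc 1 n).filter (fun k => k % M = c ∧ ∃ p ∈ (Ioc z0 z).filter Nat.Prime,
      p ∣ 2 * k * x + 1) ⊆ ((Ioc z0 z).filter Nat.Prime).biUnion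
        (fun p => (Icc 1 n).filter (fun k => k % M = c ∧ p ∣ 2 * k * x + 1)) := by
    intro k hk
    rw [mem_filter] at hk
    obtain ⟨hk1, hk2, p, hp, hpd⟩ := hk
    exact mem_biUnion.2 ⟨p, hp, mem_filter.2 ⟨hk1, hk2, hpd⟩⟩
  have h2 := (card_le_card h1).trans card_biUnion_le
  have h3 : (((Icc 1 n).filter (fun k => k % M = c ∧ ∃ p ∈ (Ioc z0 z).filter Nat.Prime,
      p ∣ 2 * k * x + 1)).card : ℝ) ≤ ((∑ p ∈ (Ioc z0 z).filter Nat.Prime,
        ((Icc 1 n).filter (fun k => k % M = c ∧ p ∣ 2 * k * x + 1)).card : ℕ) : ℝ) := by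
    exact_mod_cast h2
  refine h3.trans ?_
  push_cast
  have h4 : ∑ p ∈ (Ioc z0 z).filter Nat.Prime,
      (((Icc 1 n).filter (fun k => k % M = c ∧ p ∣ 2 * k * x + 1)).card : ℝ) ≤
      ∑ p ∈ (Ioc z0 z).filter Nat.Prime, ((n : ℝ) / M * (1 / (p : ℝ)) + 1) := by
    apply sum_le_sum
    intro p hp
    rw [mem_filter, mem_Ioc] at hp
    have hco : Nat.Coprime M p := ((Nat.Prime.coprime_iff_not_dvd hp.2).2
      (hMz p hp.2 hp.1.1)).symm
    have h5 := card_class_le M p n x c hM hp.2.pos hco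
    have h6 : (((Icc 1 n).filter (fun k => k % M = c ∧ p ∣ 2 * k * x + 1)).card : ℝ) ≤
        ((n / (M * p) + 1 : ℕ) : ℝ) := by exact_mod_cast h5
    refine h6.trans ?_
    push_cast
    have h7 : ((n / (M * p) : ℕ) : ℝ) ≤ (n : ℝ) / ((M * p : ℕ) : ℝ) := Nat.cast_div_le
    have h8 : (n : ℝ) / ((M * p : ℕ) : ℝ) = (n : ℝ) / M * (1 / (p : ℝ)) := by
      push_cast
      rw [← div_div]
      ring
    linarith
  refine h4.trans ?_
  rw [sum_add_distrib, ← mul_sum, sum_const, nsmul_eq_mul, mul_one]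
  have h5 : (((Ioc z0 z).filter Nat.Prime).card : ℝ) ≤ z := by
    have h6 : ((Ioc z0 z).filter Nat.Prime).card ≤ (Ioc z0 z).card := card_filter_le _ _
    rw [Nat.card_Ioc] at h6
    exact_mod_cast h6.trans (Nat.sub_le _ _)
  linarith

/-- one step beyond the local range -/
theorem beyond_aux (n z0 z a b : ℕ) (ha1 : 1 ≤ a) (ha : 2 ^ a ≤ z0) (hb : z < 2 ^ (b + 1))
    (hz : z0 ≤ z) (hab : ((b : ℝ) + 1 - a) * (2 / a) ≤ 9 / 20)
    (hn : (4 ^ z0) ^ 2 * 1000 ≤ n) (hzn : 4 ^ z0 * z * 100 ≤ n) :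
    HasCircular n (fun m => ∀ p : ℕ, p.Prime → p ∣ m → z < p) := by
  classical
  set S := (range (z0 + 1)).filter Nat.Prime with hS
  have hSp : ∀ p ∈ S, p.Prime := fun p hp => (mem_filter.1 hp).2
  set M := ∏ p ∈ S, p with hMdef
  have hM : 0 < M := prod_pos fun p hp => (hSp p hp).pos
  have hM4 : M ≤ 4 ^ z0 := primorial_le_four_pow z0
  have hMR : (1 : ℝ) ≤ M := by exact_mod_cast hM
  have hMz : ∀ p : ℕ, p.Prime → z0 < p → ¬ p ∣ M := by
    intro p hp hlt hpd
    obtain ⟨q, hq, hpq⟩ := (hp.prime.dvd_finsetProd_iff _).1 hpd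
    have h1 : p = q := (Nat.prime_dvd_prime_iff_eq hp (hSp q hq)).1 hpq
    have h2 := mem_range.1 (mem_filter.1 hq).1
    omega
  have hex := exists_partner S hSp
  have hcast := eq_of_casts S hSp
  choose τ hτlt hτ using hex
  rw [← hMdef] at hτlt hcast
  have hinv : ∀ r, r < M → τ (τ r) = r := by
    intro r hr
    apply hcast _ _ (hτlt _) hr
    intro p hp
    have : Fact p.Prime := ⟨hSp p hp⟩
    rw [hτ _ p hp, hτ _ p hp, inv_neg, inv_inv, neg_neg]
  have hτ0 : τ 0 = 0 := by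
    apply hcast _ _ (hτlt _) hM
    intro p hp
    have : Fact p.Prime := ⟨hSp p hp⟩
    rw [hτ _ p hp]
    simp
  have hlocal : ∀ x y, Allowed M τ x y → ∀ p ∈ S, ¬ p ∣ 2 * x * y + 1 :=
    fun x y h => local_ok S hSp τ hτ x y h
  have hMM : M * M * 1000 ≤ n := by
    have h1 : M * M ≤ (4 ^ z0) ^ 2 := by
      rw [pow_two]
      exact Nat.mul_le_mul hM4 hM4
    exact (Nat.mul_le_mul_right 1000 h1).trans hn
  have hMzn : M * z * 100 ≤ n := by
    have h1 : M * z ≤ 4 ^ z0 * z := Nat.mul_le_mul_right _ hM4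
    exact (Nat.mul_le_mul_right 100 h1).trans hzn
  have hMMR : (M : ℝ) * M * 1000 ≤ n := by exact_mod_cast hMM
  have hMznR : (M : ℝ) * z * 100 ≤ n := by exact_mod_cast hMzn
  obtain ⟨σ0, hc0, hT0, hD0⟩ := init M n hM (by omega) τ hτlt hinv hτ0
  have hsum := sum_between z0 z a b ha1 ha hb hz
  set β := ⌊(46 / 100 : ℝ) * (n / M)⌋₊ with hβ
  have hnM0 : (0 : ℝ) ≤ (n : ℝ) / M := by positivity
  have hβR : (β : ℝ) ≤ (46 / 100 : ℝ) * (n / M) := Nat.floor_le (by positivity)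
  have hbig : 2 * M + 1 + 2 * β < n / M := by
    have h1 : (n : ℝ) / M < ((n / M : ℕ) : ℝ) + 1 := by
      rw [div_lt_iff₀ (by positivity)]
      have h2 := Nat.lt_mul_div_succ n hM
      have h2' : (n : ℝ) < ((M * (n / M + 1) : ℕ) : ℝ) := by exact_mod_cast h2
      push_cast at h2'
      linarith
    have h3 : ((2 * M + 1 + 2 * β : ℕ) : ℝ) < ((n / M : ℕ) : ℝ) := by
      push_cast
      have h4 : 1000 * (M : ℝ) ≤ n / M := by
        rw [le_div_iff₀ (by positivity)]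
        linarith
      linarith
    exact_mod_cast h3
  obtain ⟨σ, hc, hσ⟩ := struct M n (n / M) (2 * M) β hM τ hτlt hinv hτ0
    (fun x y => ∀ p ∈ (Ioc z0 z).filter Nat.Prime, ¬ p ∣ 2 * x * y + 1)
    (fun x y h => by
      have h1 : 2 * y * x + 1 = 2 * x * y + 1 := by ring
      rw [h1]
      exact h)
    (fun r hr F hF => class_card M n r hM hr F hF)
    (by
      intro x hx c hc hcx F hF
      apply Nat.le_floor
      have h1 : F ⊆ (Icc 1 n).filter (fun k => k % M = c ∧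
          ∃ p ∈ (Ioc z0 z).filter Nat.Prime, p ∣ 2 * k * x + 1) := by
        intro y hy
        obtain ⟨h1, h2, h3⟩ := hF y hy
        rw [mem_filter]
        refine ⟨h1, h2, ?_⟩
        by_contra hcon
        apply h3
        intro p hp hpd
        apply hcon
        refine ⟨p, hp, ?_⟩
        have h4 : 2 * y * x + 1 = 2 * x * y + 1 := by ring
        rw [h4]
        exact hpd
      have h2 : (F.card : ℝ) ≤ (((Icc 1 n).filter (fun k => k % M = c ∧
          ∃ p ∈ (Ioc z0 z).filter Nat.Prime, p ∣ 2 * k * x + 1)).card : ℝ) := by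
        exact_mod_cast card_le_card h1
      have h3 := card_between M n x c z0 z hM hMz
      have h4 : (n : ℝ) / M * (∑ p ∈ (Ioc z0 z).filter Nat.Prime, (1 / (p : ℝ))) ≤
          (n : ℝ) / M * (9 / 20) := mul_le_mul_of_nonneg_left (hsum.trans hab) hnM0
      have h5 : 100 * (z : ℝ) ≤ n / M := by
        rw [le_div_iff₀ (by positivity)]
        linarith
      linarith)
    hbig σ0 hc0 hT0 hD0
  have hn0 : 1 ≤ n := by
    have : 0 < M * M := Nat.mul_pos hM hM
    omega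
  apply hasCircular_of n hn0
  refine ⟨σ, hc.bij, hc.per, fun i hi p hp hpd => ?_⟩
  obtain ⟨h1, h2⟩ := hσ i hi
  by_contra hcon
  by_cases hpz : p ≤ z0
  · exact hlocal _ _ h1 p (mem_filter.2 ⟨mem_range.2 (by omega), hp⟩) hpd
  · exact h2 p (mem_filter.2 ⟨mem_Ioc.2 ⟨by omega, by omega⟩, hp⟩) hpd

theorem beyond : ∃ n0 : ℕ, ∀ n : ℕ, n0 ≤ n → HasCircular n (fun m =>
    ∀ p : ℕ, p.Prime → p ∣ m → (log n) ^ (6 / 5 : ℝ) < p) := by
  have h1 : ∀ᶠ x : ℝ in Filter.atTop, 285 * log 2 ≤ log (log x) :=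
    (Real.tendsto_log_atTop.comp Real.tendsto_log_atTop).eventually (Filter.eventually_ge_atTop _)
  have h2 : ∀ᶠ x : ℝ in Filter.atTop, ‖(log x) ^ (12 / 5 : ℝ)‖ ≤ (1 / 10) * ‖x ^ (1 : ℝ)‖ :=
    (isLittleO_log_rpow_rpow_atTop (12 / 5) one_pos).bound (by norm_num)
  obtain ⟨x0, hx0⟩ := Filter.eventually_atTop.1 (h1.and h2)
  refine ⟨max (2 ^ 20) ⌈x0⌉₊, ?_⟩
  intro n hn
  have hn20 : 2 ^ 20 ≤ n := (le_max_left _ _).trans hn
  have hnR : (0 : ℝ) < n := by
    have : 0 < n := lt_of_lt_of_le (by norm_num) hn20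
    exact_mod_cast this
  obtain ⟨h3, h4⟩ := hx0 n (Nat.ceil_le.1 ((le_max_right _ _).trans hn))
  have hlog2 : log 2 < 0.6931471808 := log_two_lt_d9
  have hlog2' : 0.6931471803 < log 2 := log_two_gt_d9
  set x := log n with hx
  -- `x` is large
  have hx10 : 10 ≤ x := by
    by_contra hcon
    push Not at hcon
    have h5 : (2 : ℝ) ^ 20 ≤ n := by exact_mod_cast hn20
    have h6 := log_le_log (by norm_num) h5
    rw [log_pow] at h6
    push_cast at h6
    linarith
  have hx0' : 0 < x := by linarith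
  set z := ⌊x ^ (6 / 5 : ℝ)⌋₊ with hz
  have hzle : (z : ℝ) ≤ x ^ (6 / 5 : ℝ) := Nat.floor_le (by positivity)
  have hzlt : x ^ (6 / 5 : ℝ) < z + 1 := Nat.lt_floor_add_one _
  set L := Nat.log 2 n with hL
  have hL20 : 20 ≤ L := Nat.le_log_of_pow_le (by norm_num) hn20
  have hLn : 2 ^ L ≤ n := Nat.pow_log_le_self 2 (by
    have : 0 < 2 ^ 20 := by norm_num
    omega)
  have hnL : n < 2 ^ (L + 1) := Nat.lt_pow_succ_log_self (by norm_num) n
  set z0 := L / 8 with hz0
  have hz02 : 2 ≤ z0 := by omega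
  have hxL : x ≤ (L + 1) * log 2 := by
    have h5 : (n : ℝ) ≤ 2 ^ (L + 1) := by exact_mod_cast hnL.le
    have h6 := log_le_log hnR h5
    rw [log_pow] at h6
    push_cast at h6
    exact h6
  have hLx : (L : ℝ) * log 2 ≤ x := by
    have h5 : (2 : ℝ) ^ L ≤ n := by exact_mod_cast hLn
    have h6 := log_le_log (by positivity) h5
    rw [log_pow] at h6
    exact h6
  have hz0L : (L : ℝ) ≤ 8 * z0 + 7 := by
    have : L ≤ 8 * z0 + 7 := by omega
    exact_mod_cast this
  have hz0L' : 8 * (z0 : ℝ) ≤ L := by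
    have : 8 * z0 ≤ L := by omega
    exact_mod_cast this
  have hz0x : x / 16 ≤ z0 := by nlinarith
  have hz0z : z0 ≤ z := by
    apply Nat.le_floor
    have h5 : (z0 : ℝ) ≤ x := by nlinarith
    have h6 : x ≤ x ^ (6 / 5 : ℝ) := by
      conv_lhs => rw [← rpow_one x]
      exact rpow_le_rpow_of_exponent_le (by linarith) (by norm_num)
    linarith
  set a := Nat.log 2 z0 with ha
  set b := Nat.log 2 z with hb
  have ha1 : 1 ≤ a := Nat.le_log_of_pow_le (by norm_num) (by simpa using hz02)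
  have ha2 : 2 ^ a ≤ z0 := Nat.pow_log_le_self 2 (by omega)
  have ha3 : z0 < 2 ^ (a + 1) := Nat.lt_pow_succ_log_self (by norm_num) z0
  have hb1 : z < 2 ^ (b + 1) := Nat.lt_pow_succ_log_self (by norm_num) z
  have hb2 : 2 ^ b ≤ z := Nat.pow_log_le_self 2 (by omega)
  have haR : (1 : ℝ) ≤ a := by exact_mod_cast ha1
  have hblog : (b : ℝ) * log 2 ≤ 6 / 5 * log x := by
    have h5 : (2 : ℝ) ^ b ≤ x ^ (6 / 5 : ℝ) := by
      refine le_trans ?_ hzle
      exact_mod_cast hb2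
    have h6 := log_le_log (by positivity) h5
    rw [log_pow, log_rpow hx0'] at h6
    exact h6
  have halog : log x - 4 * log 2 ≤ (a + 1) * log 2 := by
    have h5 : x / 16 ≤ (2 : ℝ) ^ (a + 1) := by
      refine hz0x.trans ?_
      exact_mod_cast ha3.le
    have h6 := log_le_log (by positivity) h5
    rw [log_pow, log_div hx0'.ne' (by norm_num), show (16 : ℝ) = 2 ^ 4 by norm_num, log_pow] at h6
    push_cast at h6
    exact h6
  have hab : ((b : ℝ) + 1 - a) * (2 / a) ≤ 9 / 20 := by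
    have h5 : 40 * (b : ℝ) + 40 ≤ 49 * a := by
      have h6 : (40 * (b : ℝ) + 40) * log 2 ≤ (49 * a) * log 2 := by nlinarith
      exact le_of_mul_le_mul_right h6 (by linarith)
    rw [show ((b : ℝ) + 1 - a) * (2 / a) = (2 * ((b : ℝ) + 1 - a)) / a by ring,
      div_le_iff₀ (by linarith)]
    linarith
  have hpow1 : (4 ^ z0) ^ 2 * 1000 ≤ n := by
    calc (4 ^ z0) ^ 2 * 1000 ≤ (4 ^ z0) ^ 2 * 2 ^ 10 := Nat.mul_le_mul_left _ (by norm_num)
      _ = 2 ^ (4 * z0 + 10) := by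
          rw [show (4 : ℕ) = 2 ^ 2 by norm_num, ← pow_mul, ← pow_mul, ← pow_add]
          congr 1
          omega
      _ ≤ 2 ^ L := Nat.pow_le_pow_right (by norm_num) (by omega)
      _ ≤ n := hLn
  have hz2 : 10 * z ^ 2 ≤ n := by
    have h5 : (z : ℝ) ^ 2 ≤ x ^ (12 / 5 : ℝ) := by
      have h6 : (z : ℝ) ^ 2 ≤ (x ^ (6 / 5 : ℝ)) ^ 2 := by gcongr
      rw [← rpow_natCast, ← rpow_natCast, ← rpow_mul hx0'.le] at h6
      rw [← rpow_natCast]
      norm_num at h6 ⊢
      exact h6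
    rw [norm_of_nonneg (by positivity), norm_of_nonneg (by positivity), rpow_one] at h4
    have h7 : 10 * (z : ℝ) ^ 2 ≤ n := by linarith
    exact_mod_cast h7
  have hpow2 : 4 ^ z0 * z * 100 ≤ n := by
    apply (Nat.pow_le_pow_iff_left (two_ne_zero)).1
    calc (4 ^ z0 * z * 100) ^ 2 = ((4 ^ z0) ^ 2 * 1000) * (10 * z ^ 2) := by ring
      _ ≤ n * n := Nat.mul_le_mul hpow1 hz2
      _ = n ^ 2 := by ring
  refine (beyond_aux n z0 z a b ha1 ha2 hb1 hz0z hab hpow1 hpow2).mono fun m hm p hp hpd => ?_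
  have h5 := hm p hp hpd
  have h6 : (z : ℝ) + 1 ≤ p := by exact_mod_cast h5
  linarith

end Pool.Agent.H34.CR
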