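import Pool.Agent.H34.CQ.Unified

/-!
Mean values over a residue class modulo `M`.
-/

set_option autoImplicit false

namespace Pool.Agent.H34.CR

open Finset Real Pool.Agent.H34.CP Pool.Agent.H34.CQ

open Classical in
/-- the partners of `x` in the class `c` -/
noncomputable def part (M n x c : ℕ) : Finset ℕ := (Icc 1 n).filter (fun k => k % M = c ∧
  ∀ p : ℕ, p.Prime → p ∣ M → ¬ p ∣ 2 * k * x + 1)

theorem mem_part {M n x c k : ℕ} : k ∈ part M n x c ↔ k ∈ Icc 1 n ∧ k % M = c ∧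
    ∀ p : ℕ, p.Prime → p ∣ M → ¬ p ∣ 2 * k * x + 1 := by
  classical
  unfold part
  rw [mem_filter]

theorem card_part (M n x c : ℕ) (hM : 0 < M) : ((part M n x c).card : ℝ) ≤ (n : ℝ) / M + 1 := by
  have h1 : part M n x c ⊆ (Icc 1 n).filter (fun k => k % M = c ∧ 1 ∣ 2 * k * x + 1) := by
    intro k hk
    rw [mem_part] at hk
    exact mem_filter.2 ⟨hk.1, hk.2.1, one_dvd _⟩
  have h2 := (card_le_card h1).trans (card_class_le M 1 n x c hM one_pos (Nat.coprime_one_right M))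
  have h3 : ((part M n x c).card : ℝ) ≤ ((n / (M * 1) + 1 : ℕ) : ℝ) := by exact_mod_cast h2
  refine h3.trans ?_
  push_cast
  have h4 : ((n / (M * 1) : ℕ) : ℝ) ≤ (n : ℝ) / ((M * 1 : ℕ) : ℝ) := Nat.cast_div_le
  rw [mul_one] at h4 ⊢
  linarith

/-- one prime -/
theorem card_part_prime (M n x c p : ℕ) (hM : 0 < M) (hp : p.Prime) (hpn : p * M ≤ n) :
    (((part M n x c).filter (fun k => p ∣ 2 * k * x + 1)).card : ℝ) ≤
      2 * ((n : ℝ) / M) * (1 / (p : ℝ)) := by
  have hMR : (0 : ℝ) < M := by exact_mod_cast hM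
  have hpR : (0 : ℝ) < p := by exact_mod_cast hp.pos
  by_cases hpM : p ∣ M
  · have h0 : (part M n x c).filter (fun k => p ∣ 2 * k * x + 1) = ∅ := by
      apply filter_eq_empty_iff.2
      intro k hk hd
      exact (mem_part.1 hk).2.2 p hp hpM hd
    rw [h0, card_empty]
    push_cast
    positivity
  · have h1 : (part M n x c).filter (fun k => p ∣ 2 * k * x + 1) ⊆
        (Icc 1 n).filter (fun k => k % M = c ∧ p ∣ 2 * k * x + 1) := by
      intro k hk
      rw [mem_filter] at hk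
      have h2 := mem_part.1 hk.1
      exact mem_filter.2 ⟨h2.1, h2.2.1, hk.2⟩
    have hco : Nat.Coprime M p := ((Nat.Prime.coprime_iff_not_dvd hp).2 hpM).symm
    have h2 := (card_le_card h1).trans (card_class_le M p n x c hM hp.pos hco)
    have h3 : (((part M n x c).filter (fun k => p ∣ 2 * k * x + 1)).card : ℝ) ≤
        ((n / (M * p) + 1 : ℕ) : ℝ) := by exact_mod_cast h2
    refine h3.trans ?_
    push_cast
    have h4 : ((n / (M * p) : ℕ) : ℝ) ≤ (n : ℝ) / ((M * p : ℕ) : ℝ) := Nat.cast_div_le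
    have h5 : (n : ℝ) / ((M * p : ℕ) : ℝ) = (n : ℝ) / M * (1 / (p : ℝ)) := by
      push_cast
      rw [← div_div]
      ring
    have h6 : 1 ≤ (n : ℝ) / M * (1 / (p : ℝ)) := by
      have h7 : (0 : ℝ) < ((M * p : ℕ) : ℝ) := by
        exact_mod_cast Nat.mul_pos hM hp.pos
      rw [← h5, le_div_iff₀ h7, one_mul]
      exact_mod_cast (mul_comm M p).le.trans hpn
    linarith

/-- weighted mean over the primes up to `Y` -/
theorem mean_weight (M n x c Y : ℕ) (hM : 0 < M) (hY : Y * M ≤ n) (w : ℕ → ℝ)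
    (hw : ∀ p, 0 ≤ w p) :
    ∑ k ∈ part M n x c, ∑ p ∈ (Icc 1 Y).filter Nat.Prime,
      (if p ∣ 2 * k * x + 1 then w p else 0) ≤
      2 * ((n : ℝ) / M) * ∑ p ∈ (Icc 1 Y).filter Nat.Prime, (w p / (p : ℝ)) := by
  rw [sum_comm, mul_sum]
  apply sum_le_sum
  intro p hp
  rw [mem_filter, mem_Icc] at hp
  rw [← sum_filter, sum_const, nsmul_eq_mul]
  have h1 := card_part_prime M n x c p hM hp.2 ((Nat.mul_le_mul_right _ hp.1.2).trans hY)
  calc _ ≤ (2 * ((n : ℝ) / M) * (1 / (p : ℝ))) * w p := mul_le_mul_of_nonneg_right h1 (hw p)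
    _ = 2 * ((n : ℝ) / M) * (w p / p) := by ring

/-- few values with many prime factors -/
theorem many_part (M n x c Y : ℕ) (hM : 0 < M) (hY : Y * M ≤ n) (hY3 : 3 ≤ Y) (hx : x ≤ n)
    (hn : 2 * n ^ 2 + 1 < Y ^ 5) (T : ℝ) :
    (((part M n x c).filter (fun k => T < ((2 * k * x + 1).primeFactors.card : ℝ))).card : ℝ) * T ≤
      2 * ((n : ℝ) / M) * (7 + 4 * log (log Y)) + 4 * ((n : ℝ) / M + 1) := by
  have hstep : ∀ k ∈ part M n x c, ((2 * k * x + 1).primeFactors.card : ℝ) ≤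
      ∑ p ∈ (Icc 1 Y).filter Nat.Prime, (if p ∣ 2 * k * x + 1 then (1 : ℝ) else 0) + 4 := by
    intro k hk
    have hk1 := mem_Icc.1 (mem_part.1 hk).1
    have hv : 2 * k * x + 1 < Y ^ 5 := by
      have h1 : k * x ≤ n * n := Nat.mul_le_mul hk1.2 hx
      refine lt_of_le_of_lt ?_ hn
      nlinarith
    set v := 2 * k * x + 1 with hvdef
    have hv0 : v ≠ 0 := by omega
    have h1 : (v.primeFactors.filter (fun p => Y < p)).card ≤ 4 := by
      set F := v.primeFactors.filter (fun p => Y < p) with hF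
      have h2 : Y ^ F.card ≤ v := by
        calc Y ^ F.card = ∏ p ∈ F, Y := by rw [prod_const]
          _ ≤ ∏ p ∈ F, p := prod_le_prod' fun p hp => (mem_filter.1 hp).2.le
          _ ≤ ∏ p ∈ v.primeFactors, p := by
              apply prod_le_prod_of_subset_of_one_le' (filter_subset _ _)
              intro p hp _
              exact (Nat.prime_of_mem_primeFactors hp).one_le
          _ ≤ v := Nat.le_of_dvd (Nat.pos_of_ne_zero hv0) (Nat.prod_primeFactors_dvd v)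
      have h3 := (Nat.pow_lt_pow_iff_right (by omega : 1 < Y)).1 (lt_of_le_of_lt h2 hv)
      omega
    have h2 : v.primeFactors ⊆ ((Icc 1 Y).filter Nat.Prime).filter (fun p => p ∣ v) ∪
        v.primeFactors.filter (fun p => Y < p) := by
      intro p hp
      rw [mem_union, mem_filter, mem_filter, mem_filter, mem_Icc]
      have h4 := Nat.prime_of_mem_primeFactors hp
      by_cases h5 : Y < p
      · exact Or.inr ⟨hp, h5⟩
      · exact Or.inl ⟨⟨⟨h4.one_le, by omega⟩, h4⟩, Nat.dvd_of_mem_primeFactors hp⟩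
    have h3 := (card_le_card h2).trans (card_union_le _ _)
    have h4 : ∑ p ∈ (Icc 1 Y).filter Nat.Prime, (if p ∣ v then (1 : ℝ) else 0) =
        ((((Icc 1 Y).filter Nat.Prime).filter (fun p => p ∣ v)).card : ℝ) := by
      rw [← sum_filter, sum_const, nsmul_eq_mul, mul_one]
    rw [h4]
    have h5 : v.primeFactors.card ≤
        (((Icc 1 Y).filter Nat.Prime).filter (fun p => p ∣ v)).card + 4 := by omega
    exact_mod_cast h5
  set F := (part M n x c).filter (fun k => T < ((2 * k * x + 1).primeFactors.card : ℝ)) with hF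
  have hMR : (0 : ℝ) < M := by exact_mod_cast hM
  calc (F.card : ℝ) * T = ∑ k ∈ F, T := by rw [sum_const, nsmul_eq_mul]
    _ ≤ ∑ k ∈ F, ((2 * k * x + 1).primeFactors.card : ℝ) :=
        sum_le_sum fun k hk => (mem_filter.1 hk).2.le
    _ ≤ ∑ k ∈ part M n x c, ((2 * k * x + 1).primeFactors.card : ℝ) :=
        sum_le_sum_of_subset_of_nonneg (filter_subset _ _) fun k _ _ => by positivity
    _ ≤ ∑ k ∈ part M n x c, (∑ p ∈ (Icc 1 Y).filter Nat.Prime,
        (if p ∣ 2 * k * x + 1 then (1 : ℝ) else 0) + 4) := sum_le_sum hstep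
    _ = ∑ k ∈ part M n x c, ∑ p ∈ (Icc 1 Y).filter Nat.Prime,
        (if p ∣ 2 * k * x + 1 then (1 : ℝ) else 0) + (part M n x c).card * 4 := by
        rw [sum_add_distrib, sum_const, nsmul_eq_mul]
    _ ≤ 2 * ((n : ℝ) / M) * (7 + 4 * log (log Y)) + 4 * ((n : ℝ) / M + 1) := by
        have h1 := mean_weight M n x c Y hM hY (fun _ => 1) (fun _ => zero_le_one)
        have h2 := sum_inv_le Y hY3
        have h3 := card_part M n x c hM
        have h4 : (0 : ℝ) ≤ 2 * ((n : ℝ) / M) := by positivity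
        have h5 := mul_le_mul_of_nonneg_left h2 h4
        linarith

/-- few values with a large smooth part -/
theorem smooth_part (M n x c J : ℕ) (hM : 0 < M) (hJ : 2 ^ (J + 1) * M ≤ n) (T : ℝ) :
    (((part M n x c).filter (fun k => T < sm (2 ^ (J + 1)) (2 * k * x + 1))).card : ℝ) * T ≤
      12 * ((n : ℝ) / M) * (J + 1) := by
  set F := (part M n x c).filter (fun k => T < sm (2 ^ (J + 1)) (2 * k * x + 1)) with hF
  have hMR : (0 : ℝ) < M := by exact_mod_cast hM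
  have hstep : ∀ k ∈ part M n x c, sm (2 ^ (J + 1)) (2 * k * x + 1) ≤
      ∑ p ∈ (Icc 1 (2 ^ (J + 1))).filter Nat.Prime,
        (if p ∣ 2 * k * x + 1 then log (p : ℝ) else 0) := by
    intro k _
    rw [← sum_filter, sm]
    apply sum_le_sum_of_subset_of_nonneg
    · intro p hp
      rw [mem_filter] at hp
      rw [mem_filter, mem_filter, mem_Icc]
      have h4 := Nat.prime_of_mem_primeFactors hp.1
      exact ⟨⟨⟨h4.one_le, hp.2⟩, h4⟩, Nat.dvd_of_mem_primeFactors hp.1⟩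
    · intro p _ _
      exact log_natCast_nonneg p
  calc (F.card : ℝ) * T = ∑ k ∈ F, T := by rw [sum_const, nsmul_eq_mul]
    _ ≤ ∑ k ∈ F, sm (2 ^ (J + 1)) (2 * k * x + 1) :=
        sum_le_sum fun k hk => (mem_filter.1 hk).2.le
    _ ≤ ∑ k ∈ part M n x c, sm (2 ^ (J + 1)) (2 * k * x + 1) :=
        sum_le_sum_of_subset_of_nonneg (filter_subset _ _) fun k _ _ => sm_nonneg _ _
    _ ≤ ∑ k ∈ part M n x c, ∑ p ∈ (Icc 1 (2 ^ (J + 1))).filter Nat.Prime,
        (if p ∣ 2 * k * x + 1 then log (p : ℝ) else 0) := sum_le_sum hstep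
    _ ≤ 2 * ((n : ℝ) / M) * ∑ p ∈ (Icc 1 (2 ^ (J + 1))).filter Nat.Prime, (log p / (p : ℝ)) :=
        mean_weight M n x c _ hM hJ (fun p => log p) (fun p => log_natCast_nonneg p)
    _ ≤ 2 * ((n : ℝ) / M) * (6 * (J + 1)) :=
        mul_le_mul_of_nonneg_left (sum_log_pow J) (by positivity)
    _ = 12 * ((n : ℝ) / M) * (J + 1) := by ring

/-- squares of numbers above `z0` -/
theorem sum_inv_sq (z0 m : ℕ) (hz : 1 ≤ z0) :
    ∑ j ∈ Ioc z0 (z0 + m), (1 / (j : ℝ) ^ 2) ≤ 1 / z0 - 1 / ((z0 : ℝ) + m) := by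
  have hzR : (1 : ℝ) ≤ z0 := by exact_mod_cast hz
  induction m with
  | zero => simp
  | succ m ih =>
    rw [← add_assoc, sum_Ioc_succ_top (by omega)]
    have hm : (0 : ℝ) ≤ m := Nat.cast_nonneg m
    have h1 : 1 / ((z0 + m + 1 : ℕ) : ℝ) ^ 2 ≤
        1 / ((z0 : ℝ) + m) - 1 / ((z0 : ℝ) + m + 1) := by
      push_cast
      rw [div_sub_div _ _ (by positivity) (by positivity),
        div_le_div_iff₀ (by positivity) (by positivity)]
      nlinarith
    push_cast at h1 ih ⊢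
    rw [← add_assoc]
    linarith

/-- few values divisible by the square of a prime between `z0` and `P` -/
theorem sq_part (M n x c z0 P : ℕ) (hM : 0 < M) (hz : 1 ≤ z0)
    (hMz : ∀ p : ℕ, p.Prime → ¬ p ∣ M → z0 < p) :
    (((part M n x c).filter (fun k => ∃ p ∈ (Icc 1 P).filter Nat.Prime,
      p ^ 2 ∣ 2 * k * x + 1)).card : ℝ) ≤ (n : ℝ) / M * (1 / z0) + P := by
  classical
  have hMR : (0 : ℝ) < M := by exact_mod_cast hM
  set Pr := (Ioc z0 (z0 + P)).filter (fun p => p.Prime ∧ ¬ p ∣ M ∧ p ≤ P) with hPr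
  have h1 : (part M n x c).filter (fun k => ∃ p ∈ (Icc 1 P).filter Nat.Prime,
      p ^ 2 ∣ 2 * k * x + 1) ⊆
      Pr.biUnion (fun p => (Icc 1 n).filter (fun k => k % M = c ∧ p ^ 2 ∣ 2 * k * x + 1)) := by
    intro k hk
    rw [mem_filter] at hk
    obtain ⟨hk1, p, hp, hpd⟩ := hk
    rw [mem_part] at hk1
    rw [mem_filter, mem_Icc] at hp
    have hpM : ¬ p ∣ M := fun h => hk1.2.2 p hp.2 h ((dvd_pow_self p two_ne_zero).trans hpd)
    have hlt := hMz p hp.2 hpM
    exact mem_biUnion.2 ⟨p, mem_filter.2 ⟨mem_Ioc.2 ⟨hlt, by omega⟩, hp.2, hpM, hp.1.2⟩,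
      mem_filter.2 ⟨hk1.1, hk1.2.1, hpd⟩⟩
  have h2 : (((part M n x c).filter (fun k => ∃ p ∈ (Icc 1 P).filter Nat.Prime,
      p ^ 2 ∣ 2 * k * x + 1)).card : ℝ) ≤ ∑ p ∈ Pr, ((n : ℝ) / M * (1 / (p : ℝ) ^ 2) + 1) := by
    have h3 := (card_le_card h1).trans card_biUnion_le
    have h4 : (((part M n x c).filter (fun k => ∃ p ∈ (Icc 1 P).filter Nat.Prime,
      p ^ 2 ∣ 2 * k * x + 1)).card : ℝ) ≤
        ((∑ p ∈ Pr, ((Icc 1 n).filter (fun k => k % M = c ∧ p ^ 2 ∣ 2 * k * x + 1)).card : ℕ) : ℝ) := by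
      exact_mod_cast h3
    refine h4.trans ?_
    push_cast
    apply sum_le_sum
    intro p hp
    have hp1 := (mem_filter.1 hp).2
    have hco : Nat.Coprime M (p ^ 2) :=
      Nat.Coprime.pow_right _ ((Nat.Prime.coprime_iff_not_dvd hp1.1).2 hp1.2.1).symm
    have h5 := card_class_le M (p ^ 2) n x c hM (pow_pos hp1.1.pos 2) hco
    have h6 : (((Icc 1 n).filter (fun k => k % M = c ∧ p ^ 2 ∣ 2 * k * x + 1)).card : ℝ) ≤
        ((n / (M * p ^ 2) + 1 : ℕ) : ℝ) := by exact_mod_cast h5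
    refine h6.trans ?_
    push_cast
    have h7 : ((n / (M * p ^ 2) : ℕ) : ℝ) ≤ (n : ℝ) / ((M * p ^ 2 : ℕ) : ℝ) := Nat.cast_div_le
    have h8 : (n : ℝ) / ((M * p ^ 2 : ℕ) : ℝ) = (n : ℝ) / M * (1 / (p : ℝ) ^ 2) := by
      push_cast
      rw [← div_div]
      ring
    linarith
  rw [sum_add_distrib, ← mul_sum, sum_const, nsmul_eq_mul, mul_one] at h2
  have h3 : ∑ p ∈ Pr, (1 / (p : ℝ) ^ 2) ≤ 1 / (z0 : ℝ) := by
    have h4 : ∑ p ∈ Pr, (1 / (p : ℝ) ^ 2) ≤ ∑ j ∈ Ioc z0 (z0 + P), (1 / (j : ℝ) ^ 2) :=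
      sum_le_sum_of_subset_of_nonneg (filter_subset _ _) fun p _ _ => by positivity
    have h5 := sum_inv_sq z0 P hz
    have h6 : (0 : ℝ) ≤ 1 / ((z0 : ℝ) + P) := by positivity
    linarith
  have h4 : (Pr.card : ℝ) ≤ P := by
    have h5 : Pr.card ≤ (Ioc z0 (z0 + P)).card := card_filter_le _ _
    rw [Nat.card_Ioc, Nat.add_sub_cancel_left] at h5
    exact_mod_cast h5
  have h5 : (0 : ℝ) ≤ (n : ℝ) / M := by positivity
  have h6 := mul_le_mul_of_nonneg_left h3 h5
  linarith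

end Pool.Agent.H34.CR
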