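import Pool.Agent.H34.CQ.Unified

/-!
Few values `2 y x + 1` with `y ≤ n` are divisible by the square of a large prime.
-/

set_option autoImplicit false

namespace Pool.Agent.H34.CR

open Finset

/-- the divisor bound `τ(x)² ≤ 4x` -/
theorem tau_sq (x : ℕ) (hx : 0 < x) : x.divisors.card ^ 2 ≤ 4 * x := by
  set s := Nat.sqrt x with hs
  have h1 : x.divisors ⊆ Icc 1 s ∪ (Icc 1 s).image (fun d => x / d) := by
    intro d hd
    rw [Nat.mem_divisors] at hd
    have hd0 : 0 < d := Nat.pos_of_dvd_of_pos hd.1 hx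
    rw [mem_union, mem_Icc, mem_image]
    by_cases h : d ≤ s
    · exact Or.inl ⟨hd0, h⟩
    · right
      have h2 : d * (x / d) = x := Nat.mul_div_cancel' hd.1
      have h3 : x < (s + 1) * (s + 1) := by have := Nat.lt_succ_sqrt x; exact this
      refine ⟨x / d, ?_, ?_⟩
      · rw [mem_Icc]
        constructor
        · apply Nat.pos_of_ne_zero
          intro h0
          rw [h0] at h2
          omega
        · by_contra hcon
          have h4 : (s + 1) * (s + 1) ≤ d * (x / d) := Nat.mul_le_mul (by omega) (by omega)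
          omega
      · exact Nat.div_div_self hd.1 hx.ne'
  have h2 : x.divisors.card ≤ 2 * s := by
    refine (card_le_card h1).trans ((card_union_le _ _).trans ?_)
    have h3 : ((Icc 1 s).image (fun d => x / d)).card ≤ (Icc 1 s).card := card_image_le
    rw [Nat.card_Icc] at h3 ⊢
    omega
  have h3 : s * s ≤ x := Nat.sqrt_le x
  calc x.divisors.card ^ 2 ≤ (2 * s) ^ 2 := Nat.pow_le_pow_left h2 2
    _ = 4 * (s * s) := by ring
    _ ≤ 4 * x := Nat.mul_le_mul_left _ h3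

/-- solutions of `t² ≡ q² (mod x)`, `q` prime to `x` -/
theorem card_sq_le (x q X : ℕ) (hx : 0 < x) (hq : Nat.Coprime x q) :
    ((Icc 1 X).filter (fun t : ℕ => x ∣ ((t : ℤ) - (q : ℤ)).natAbs * (t + q))).card ≤
      x.divisors.card * (2 * X / x + 1) := by
  set T := (Icc 1 X).filter (fun t : ℕ => x ∣ ((t : ℤ) - (q : ℤ)).natAbs * (t + q)) with hT
  have h1 : T.card ≤ (x.divisors ×ˢ range (2 * X / x + 1)).card := by
    apply card_le_card_of_injOn (fun t : ℕ => (Nat.gcd x ((t : ℤ) - (q : ℤ)).natAbs, 2 * t / x))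
    · intro t ht
      have ht' := mem_filter.1 (mem_coe.1 ht)
      rw [mem_Icc] at ht'
      rw [mem_coe, mem_product, Nat.mem_divisors, mem_range]
      refine ⟨⟨Nat.gcd_dvd_left _ _, hx.ne'⟩, Nat.lt_succ_of_le ?_⟩
      exact Nat.div_le_div_right (by omega)
    · intro t ht u hu htu
      have ht' := (mem_filter.1 (mem_coe.1 ht)).2
      have hu' := (mem_filter.1 (mem_coe.1 hu)).2
      have hd : Nat.gcd x ((t : ℤ) - q).natAbs = Nat.gcd x ((u : ℤ) - q).natAbs :=
        (Prod.ext_iff.1 htu).1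
      have hdiv : 2 * t / x = 2 * u / x := (Prod.ext_iff.1 htu).2
      set d := Nat.gcd x ((t : ℤ) - q).natAbs with hdd
      have hd0 : 0 < d := Nat.gcd_pos_of_pos_left _ hx
      have hdx : d ∣ x := Nat.gcd_dvd_left _ _
      -- the cofactor divides `t + q` and `u + q`
      have hcof : ∀ w : ℕ, x ∣ ((w : ℤ) - q).natAbs * (w + q) →
          Nat.gcd x ((w : ℤ) - q).natAbs = d → x / d ∣ w + q := by
        intro w hw hwd
        have h2 : x ∣ Nat.gcd x ((w : ℤ) - q).natAbs * Nat.gcd x (w + q) :=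
          Nat.dvd_gcd_mul_gcd_iff_dvd_mul.2 hw
        rw [hwd] at h2
        exact ((Nat.div_dvd_iff_dvd_mul hdx hd0).2 h2).trans (Nat.gcd_dvd_right _ _)
      have he1 := hcof t ht' rfl
      have he2 := hcof u hu' hd.symm
      have hd1 : (d : ℤ) ∣ (t : ℤ) - q := Int.natCast_dvd.2 (Nat.gcd_dvd_right _ _)
      have hd2 : (d : ℤ) ∣ (u : ℤ) - q := by
        rw [hd]
        exact Int.natCast_dvd.2 (Nat.gcd_dvd_right _ _)
      set e := x / d with he
      have hde : d * e = x := Nat.mul_div_cancel' hdx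
      have he1' : (e : ℤ) ∣ (t : ℤ) + q := by exact_mod_cast he1
      have he2' : (e : ℤ) ∣ (u : ℤ) + q := by exact_mod_cast he2
      have hdD : (d : ℤ) ∣ (t : ℤ) - u := by
        have := dvd_sub hd1 hd2
        have h3 : (t : ℤ) - q - (u - q) = t - u := by ring
        rwa [h3] at this
      have heD : (e : ℤ) ∣ (t : ℤ) - u := by
        have := dvd_sub he1' he2'
        have h3 : (t : ℤ) + q - (u + q) = t - u := by ring
        rwa [h3] at this
      -- the greatest common divisor of `d` and `e` divides 2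
      have hg2 : Nat.gcd d e ∣ 2 := by
        have h3 : ((Nat.gcd d e : ℕ) : ℤ) ∣ (t : ℤ) - q :=
          (Int.natCast_dvd_natCast.2 (Nat.gcd_dvd_left d e)).trans hd1
        have h4 : ((Nat.gcd d e : ℕ) : ℤ) ∣ (t : ℤ) + q :=
          (Int.natCast_dvd_natCast.2 (Nat.gcd_dvd_right d e)).trans he1'
        have h5 := dvd_sub h4 h3
        have h6 : (t : ℤ) + q - (t - q) = ((2 * q : ℕ) : ℤ) := by push_cast; ring
        rw [h6] at h5
        have h7 : Nat.gcd d e ∣ 2 * q := Int.natCast_dvd_natCast.1 h5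
        have h8 : Nat.Coprime (Nat.gcd d e) q :=
          Nat.Coprime.coprime_dvd_left ((Nat.gcd_dvd_left d e).trans hdx) hq
        exact h8.dvd_of_dvd_mul_right h7
      -- so `x` divides `2 (t - u)`
      have hxD : (x : ℤ) ∣ 2 * ((t : ℤ) - u) := by
        have h3 : ((Nat.lcm d e : ℕ) : ℤ) ∣ (t : ℤ) - u := by
          rw [Int.natCast_dvd] at hdD heD ⊢
          exact Nat.lcm_dvd hdD heD
        have h4 : ((Nat.gcd d e : ℕ) : ℤ) ∣ 2 := by exact_mod_cast hg2
        have h5 := mul_dvd_mul h4 h3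
        have h6 : ((Nat.gcd d e : ℕ) : ℤ) * ((Nat.lcm d e : ℕ) : ℤ) = (x : ℤ) := by
          rw [← Nat.cast_mul, Nat.gcd_mul_lcm, hde]
        rwa [h6] at h5
      -- hence `t = u`
      have hm1 := Nat.div_add_mod (2 * t) x
      have hm2 := Nat.div_add_mod (2 * u) x
      have hl1 := Nat.mod_lt (2 * t) hx
      have hl2 := Nat.mod_lt (2 * u) hx
      rw [hdiv] at hm1
      obtain ⟨k, hk⟩ := hxD
      have h7 : (2 * (t : ℤ) - 2 * u) = x * k := by linarith
      have h8 : (2 * (t : ℤ) - 2 * u) < x := by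
        have : 2 * t < 2 * u + x := by omega
        omega
      have h9 : -(x : ℤ) < (2 * (t : ℤ) - 2 * u) := by
        have : 2 * u < 2 * t + x := by omega
        omega
      have hx' : (0 : ℤ) < x := by exact_mod_cast hx
      have hk0 : k = 0 := by
        by_contra hne
        rcases lt_or_gt_of_ne hne with h | h
        · have : (x : ℤ) * k ≤ x * (-1) := mul_le_mul_of_nonneg_left (by omega) hx'.le
          linarith
        · have : (x : ℤ) * 1 ≤ x * k := mul_le_mul_of_nonneg_left (by omega) hx'.le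
          linarith
      rw [hk0, mul_zero] at h7
      omega
  rwa [card_product, card_range] at h1

open Classical in
/-- primes whose square times `m` is `2yx + 1` for some `y` -/
theorem card_primes_le (x m X : ℕ) (hx : 0 < x) :
    ((Icc 1 X).filter (fun p => ∃ y, p ^ 2 * m = 2 * y * x + 1)).card ≤
      x.divisors.card * (2 * X / x + 1) := by
  set F := (Icc 1 X).filter (fun p => ∃ y, p ^ 2 * m = 2 * y * x + 1) with hF
  rcases F.eq_empty_or_nonempty with h0 | ⟨q, hq⟩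
  · rw [h0, card_empty]
    exact Nat.zero_le _
  obtain ⟨yq, hyq⟩ := (mem_filter.1 hq).2
  have hcop : ∀ z : ℕ, z ∣ 2 * yq * x + 1 → Nat.Coprime x z := by
    intro z hz
    apply Nat.Coprime.symm
    refine Nat.Coprime.coprime_dvd_left hz ?_
    have : 2 * yq * x + 1 = 1 + (2 * yq) * x := by ring
    rw [this]
    simp
  have hxq : Nat.Coprime x q := hcop q (by rw [← hyq, pow_two, mul_assoc]; exact Dvd.intro _ rfl)
  have hxm : Nat.Coprime x m := hcop m (by rw [← hyq]; exact Dvd.intro_left _ rfl)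
  refine (card_le_card ?_).trans (card_sq_le x q X hx hxq)
  intro p hp
  obtain ⟨yp, hyp⟩ := (mem_filter.1 hp).2
  rw [mem_filter]
  refine ⟨(mem_filter.1 hp).1, ?_⟩
  have h1 : (x : ℤ) ∣ (m : ℤ) * (((p : ℤ) - q) * (p + q)) := by
    refine ⟨2 * yp - 2 * yq, ?_⟩
    have h2 : ((p : ℤ)) ^ 2 * m = 2 * yp * x + 1 := by exact_mod_cast hyp
    have h3 : ((q : ℤ)) ^ 2 * m = 2 * yq * x + 1 := by exact_mod_cast hyq
    linear_combination h2 - h3
  have h2 : x ∣ m * (((p : ℤ) - q).natAbs * (p + q)) := by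
    have h3 := Int.natCast_dvd.1 h1
    rw [Int.natAbs_mul, Int.natAbs_mul] at h3
    have h4 : ((p : ℤ) + q).natAbs = p + q := by
      rw [← Nat.cast_add, Int.natAbs_natCast]
    rw [h4, Int.natAbs_natCast] at h3
    exact h3
  exact hxm.dvd_of_dvd_mul_left h2

open Classical in
/-- large prime squares -/
theorem card_large_sq (K n x : ℕ) (hK : 1 ≤ K) (hn : n ≤ 2 ^ 20 * K ^ 20) (hx : x ≤ n)
    (hx0 : 0 < x) :
    ((Icc 1 n).filter (fun y => ∃ p, 2 ^ 11 * K ^ 18 < p ∧ p ^ 2 ∣ 2 * y * x + 1)).card ≤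
      2 ^ 54 * K ^ 18 := by
  set B := (Icc 1 n).filter (fun y => ∃ p, 2 ^ 11 * K ^ 18 < p ∧ p ^ 2 ∣ 2 * y * x + 1) with hB
  have hKp : ∀ j, 1 ≤ K ^ j := fun j => Nat.one_le_pow _ _ hK
  by_cases hxs : x ≤ K ^ 16
  · have : B = ∅ := by
      apply filter_eq_empty_iff.2
      rintro y hy ⟨p, hp, hpd⟩
      rw [mem_Icc] at hy
      have h1 := Nat.le_of_dvd (by omega) hpd
      have h2 : (2 ^ 11 * K ^ 18) ^ 2 < p ^ 2 := Nat.pow_lt_pow_left hp (by norm_num)
      have h3 : (2 ^ 11 * K ^ 18) ^ 2 = 2 ^ 22 * K ^ 36 := by ring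
      have h4 : y * x ≤ (2 ^ 20 * K ^ 20) * K ^ 16 := Nat.mul_le_mul (hy.2.trans hn) hxs
      have h5 : (2 ^ 20 * K ^ 20) * K ^ 16 = 2 ^ 20 * K ^ 36 := by ring
      have h6 := hKp 36
      have h7 : 2 * y * x = 2 * (y * x) := by ring
      rw [h3] at h2
      rw [h5] at h4
      rw [h7] at h1
      norm_num at h2 h4
      omega
    rw [this, card_empty]
    exact Nat.zero_le _
  push Not at hxs
  -- choose the primes
  have hch : ∀ y ∈ B, ∃ p m : ℕ, 2 ^ 11 * K ^ 18 < p ∧ p ^ 2 * m = 2 * y * x + 1 := by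
    intro y hy
    obtain ⟨p, hp, m, hm⟩ := (mem_filter.1 hy).2
    exact ⟨p, m, hp, hm.symm⟩
  choose! P m hP hm using hch
  have hmax : ∀ y ∈ B, m y ∈ Icc 1 (2 ^ 20 * K ^ 4) ∧ P y ∈ Icc 1 (2 ^ 21 * K ^ 20) := by
    intro y hy
    have h1 := hP y hy
    have h2 := hm y hy
    have hy' := mem_Icc.1 (mem_filter.1 hy).1
    have h3 : 2 * y * x + 1 ≤ 2 ^ 42 * K ^ 40 := by
      have h4 : y * x ≤ (2 ^ 20 * K ^ 20) * (2 ^ 20 * K ^ 20) :=
        Nat.mul_le_mul (hy'.2.trans hn) (hx.trans hn)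
      have h5 : (2 ^ 20 * K ^ 20) * (2 ^ 20 * K ^ 20) = 2 ^ 40 * K ^ 40 := by ring
      have h6 := hKp 40
      have h7 : 2 * y * x = 2 * (y * x) := by ring
      rw [h5] at h4
      rw [h7]
      norm_num at h4 ⊢
      omega
    have hm0 : 0 < m y := by
      apply Nat.pos_of_ne_zero
      intro h0
      rw [h0] at h2
      omega
    rw [mem_Icc, mem_Icc]
    refine ⟨⟨hm0, ?_⟩, by omega, ?_⟩
    · by_contra hcon
      push Not at hcon
      have h4 : (2 ^ 11 * K ^ 18) ^ 2 * (2 ^ 20 * K ^ 4) < P y ^ 2 * m y :=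
        Nat.mul_lt_mul'' (Nat.pow_lt_pow_left h1 (by norm_num)) hcon
      have h5 : (2 ^ 11 * K ^ 18) ^ 2 * (2 ^ 20 * K ^ 4) = 2 ^ 42 * K ^ 40 := by ring
      omega
    · by_contra hcon
      push Not at hcon
      have h4 : (2 ^ 21 * K ^ 20) ^ 2 < P y ^ 2 := Nat.pow_lt_pow_left hcon (by norm_num)
      have h5 : (2 ^ 21 * K ^ 20) ^ 2 = 2 ^ 42 * K ^ 40 := by ring
      have h6 : P y ^ 2 * 1 ≤ P y ^ 2 * m y := Nat.mul_le_mul_left _ hm0
      omega
  have hle : B.card ≤ ((Icc 1 (2 ^ 20 * K ^ 4)).sigma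
      (fun j => (Icc 1 (2 ^ 21 * K ^ 20)).filter (fun p => ∃ y, p ^ 2 * j = 2 * y * x + 1))).card := by
    apply card_le_card_of_injOn (fun y => (⟨m y, P y⟩ : Σ _ : ℕ, ℕ))
    · intro y hy
      have hy' := mem_coe.1 hy
      rw [mem_coe, mem_sigma]
      exact ⟨(hmax y hy').1, mem_filter.2 ⟨(hmax y hy').2, y, hm y hy'⟩⟩
    · intro y hy w hw hyw
      have hy' := mem_coe.1 hy
      have hw' := mem_coe.1 hw
      have h1 : m y = m w := congrArg Sigma.fst hyw
      have h2 : P y = P w := by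
        have := hyw
        simp only [Sigma.mk.injEq, heq_eq_eq] at this
        exact this.2
      have h3 := hm y hy'
      have h4 := hm w hw'
      rw [h1, h2, h4] at h3
      have h5 : w * x = y * x := by
        have h6 : 2 * w * x = 2 * (w * x) := by ring
        have h7 : 2 * y * x = 2 * (y * x) := by ring
        omega
      exact (Nat.eq_of_mul_eq_mul_right hx0 h5).symm
  rw [card_sigma] at hle
  have hτ := tau_sq x hx0
  have hτ' : x.divisors.card ≤ 2 ^ 11 * K ^ 10 := by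
    apply (Nat.pow_le_pow_iff_left (two_ne_zero)).1
    calc x.divisors.card ^ 2 ≤ 4 * x := hτ
      _ ≤ 4 * (2 ^ 20 * K ^ 20) := Nat.mul_le_mul_left _ (hx.trans hn)
      _ = (2 ^ 11 * K ^ 10) ^ 2 := by ring
  have hq : 2 * (2 ^ 21 * K ^ 20) / x + 1 ≤ 2 ^ 23 * K ^ 4 := by
    have h1 : 2 * (2 ^ 21 * K ^ 20) / x ≤ 2 * (2 ^ 21 * K ^ 20) / K ^ 16 :=
      Nat.div_le_div_left hxs.le (hKp 16)
    have h2 : 2 * (2 ^ 21 * K ^ 20) / K ^ 16 = 2 ^ 22 * K ^ 4 := by
      have h3 : 2 * (2 ^ 21 * K ^ 20) = (2 ^ 22 * K ^ 4) * K ^ 16 := by ring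
      rw [h3, Nat.mul_div_cancel _ (hKp 16)]
    have h4 := hKp 4
    rw [h2] at h1
    norm_num at h1 ⊢
    omega
  calc B.card ≤ ∑ j ∈ Icc 1 (2 ^ 20 * K ^ 4), ((Icc 1 (2 ^ 21 * K ^ 20)).filter
        (fun p => ∃ y, p ^ 2 * j = 2 * y * x + 1)).card := hle
    _ ≤ ∑ j ∈ Icc 1 (2 ^ 20 * K ^ 4), (2 ^ 11 * K ^ 10) * (2 ^ 23 * K ^ 4) := by
        apply sum_le_sum
        intro j _
        exact (card_primes_le x j _ hx0).trans (Nat.mul_le_mul hτ' hq)
    _ = 2 ^ 54 * K ^ 18 := by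
        rw [sum_const, Nat.card_Icc, Nat.add_sub_cancel, smul_eq_mul]
        ring

end Pool.Agent.H34.CR
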