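import Pool.Agent.H34.CR.Beyond
import Pool.Agent.H34.CR.Squares
import Pool.Agent.H34.CR.Means

/-!
Circular permutations of `1, …, n` all of whose numbers `2ab + 1` are squarefree, with few prime
factors, all above `(log n) ^ (6/5)`.
-/

set_option autoImplicit false

namespace Pool.Agent.H34.CR

open Finset Real Pool.Agent.H34.CP Pool.Agent.H34.CQ

/-- the property of the numbers (besides small primes) -/
def Nice2 (ε : ℝ) (r n z0 z m : ℕ) : Prop :=
  Squarefree m ∧ (∀ p ∈ (Ioc z0 z).filter Nat.Prime, ¬ p ∣ m) ∧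
    (m.primeFactors.card : ℝ) ≤ 3000 * log (log n) ∧
    ∃ u w : ℕ, m = u * w ∧ (u : ℝ) ≤ (n : ℝ) ^ ε ∧ w.primeFactors.card ≤ r

/-- the number of bad partners -/
theorem bad_count (ε : ℝ) (hε : 0 < ε) (hε1 : ε ≤ 1) (M n x c z0 z a b K r : ℕ) (hM : 0 < M)
    (hMK : M ≤ K) (hz01 : 1000 ≤ z0) (hMz : ∀ p : ℕ, p.Prime → z0 < p → ¬ p ∣ M)
    (hMz' : ∀ p : ℕ, p.Prime → ¬ p ∣ M → z0 < p)
    (ha1 : 1 ≤ a) (ha : 2 ^ a ≤ z0) (hb : z < 2 ^ (b + 1)) (hz : z0 ≤ z)
    (hab : ((b : ℝ) + 1 - a) * (2 / a) ≤ 9 / 20)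
    (hK : 2 ^ 65 ≤ K) (hn1 : K ^ 20 ≤ n) (hn2 : n ≤ 2 ^ 20 * K ^ 20) (hx0 : 0 < x) (hx : x ≤ n)
    (hz2 : 1000 * z ≤ K ^ 19) (hL : 1 ≤ log (log n)) (hεL : 2400 ≤ ε * log n)
    (hKlog : log n ≤ 1200 * log K) (hr : 24000 / ε ≤ r) (F : Finset ℕ)
    (hF : ∀ y ∈ F, y ∈ part M n x c ∧ ¬ Nice2 ε r n z0 z (2 * y * x + 1)) :
    (F.card : ℝ) ≤ 48 / 100 * ((n : ℝ) / M) := by
  classical
  have hMR : (0 : ℝ) < M := by exact_mod_cast hM
  have hK1 : 1 ≤ K := le_trans (by norm_num) hK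
  have hKR : (2 : ℝ) ^ 65 ≤ K := by exact_mod_cast hK
  have hKR0 : (0 : ℝ) < K := by
    have : (0 : ℝ) < 2 ^ 65 := by norm_num
    linarith
  have hMKR : (M : ℝ) ≤ K := by exact_mod_cast hMK
  have hn1R : (K : ℝ) ^ 20 ≤ n := by exact_mod_cast hn1
  have hn2R : (n : ℝ) ≤ 2 ^ 20 * K ^ 20 := by exact_mod_cast hn2
  have hz2R : 1000 * (z : ℝ) ≤ K ^ 19 := by exact_mod_cast hz2
  -- the class size
  have hN : (K : ℝ) ^ 19 ≤ (n : ℝ) / M := by
    rw [le_div_iff₀ hMR]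
    calc (K : ℝ) ^ 19 * M ≤ K ^ 19 * K := mul_le_mul_of_nonneg_left hMKR (by positivity)
      _ = K ^ 20 := by ring
      _ ≤ n := hn1R
  have hK19 : (K : ℝ) ^ 19 = K ^ 18 * K := by ring
  have hK18 : (0 : ℝ) < (K : ℝ) ^ 18 := by positivity
  have hNbig : 1000 * (2 ^ 55 * (K : ℝ) ^ 18) ≤ (n : ℝ) / M := by
    refine le_trans ?_ hN
    rw [hK19]
    have h1 : (1000 * 2 ^ 55 : ℝ) ≤ K := by
      refine le_trans ?_ hKR
      norm_num
    calc 1000 * (2 ^ 55 * (K : ℝ) ^ 18) = (K : ℝ) ^ 18 * (1000 * 2 ^ 55) := by ring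
      _ ≤ (K : ℝ) ^ 18 * K := mul_le_mul_of_nonneg_left h1 hK18.le
  have hN1 : (1000 : ℝ) ≤ (n : ℝ) / M := by
    refine le_trans ?_ hNbig
    have h1 : (1 : ℝ) ≤ (K : ℝ) ^ 18 := by
      apply one_le_pow₀
      linarith [show (1 : ℝ) ≤ 2 ^ 65 by norm_num]
    norm_num at *
    linarith
  have hN0 : (0 : ℝ) < (n : ℝ) / M := by linarith
  have hnpos : (0 : ℝ) < n := by
    have : (0 : ℝ) < (K : ℝ) ^ 20 := by positivity
    linarith
  -- logarithms
  have hlogn : 0 < log n := by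
    by_contra hcon
    push Not at hcon
    nlinarith
  have hlog2 : log 2 < 0.6931471808 := log_two_lt_d9
  have hlog2' : 0.6931471803 < log 2 := log_two_gt_d9
  have hn16 : 16 ≤ n := by
    have h1 : 16 ≤ K ^ 20 := by
      calc 16 ≤ 2 ^ 65 := by norm_num
        _ ≤ K := hK
        _ ≤ K ^ 20 := Nat.le_self_pow (by norm_num) K
    omega
  have hnR16 : (16 : ℝ) ≤ n := by exact_mod_cast hn16
  have hlogt : log ((n + 1 : ℕ) : ℝ) ≤ 2 * log n := by
    have h5 : ((n + 1 : ℕ) : ℝ) ≤ (n : ℝ) ^ 2 := by push_cast; nlinarith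
    have h6 := log_le_log (by positivity) h5
    rw [log_pow] at h6
    push_cast at h6 ⊢
    exact h6
  -- the smoothness level
  set k0 := ⌊ε * log n / 1200⌋₊ with hk0
  have ha2 : 2 ≤ ε * log n / 1200 := by
    rw [le_div_iff₀ (by norm_num)]
    linarith
  have hkle : (k0 : ℝ) ≤ ε * log n / 1200 := Nat.floor_le (by positivity)
  have hklt : ε * log n / 1200 < k0 + 1 := Nat.lt_floor_add_one _
  have hkge : ε * log n / 1200 / 2 ≤ k0 := by linarith
  have hk1 : 1 ≤ k0 := by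
    have : (1 : ℝ) ≤ k0 := by linarith
    exact_mod_cast this
  obtain ⟨J, hJ⟩ : ∃ J, k0 = J + 1 := ⟨k0 - 1, by omega⟩
  have hJR : (k0 : ℝ) = J + 1 := by rw [hJ]; push_cast; ring
  have hpowK : 2 ^ (J + 1) ≤ K := by
    have h5 : ((2 : ℝ)) ^ (J + 1) ≤ (K : ℝ) := by
      rw [← log_le_log_iff (by positivity) hKR0, log_pow, ← hJ]
      have h6 : (k0 : ℝ) ≤ log K := by
        refine hkle.trans ?_
        rw [div_le_iff₀ (by norm_num)]
        have h7 : ε * log n ≤ 1 * log n := mul_le_mul_of_nonneg_right hε1 hlogn.le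
        linarith
      have h8 : (k0 : ℝ) * log 2 ≤ k0 * 1 :=
        mul_le_mul_of_nonneg_left (by linarith) (Nat.cast_nonneg _)
      linarith
    exact_mod_cast h5
  have hKpow : ∀ j, 1 ≤ K ^ j := fun j => Nat.one_le_pow _ _ hK1
  have hKKn : K * K ≤ n := by
    calc K * K = K ^ 2 := by ring
      _ ≤ K ^ 20 := Nat.pow_le_pow_right hK1 (by norm_num)
      _ ≤ n := hn1
  have hJn : 2 ^ (J + 1) * M ≤ n := (Nat.mul_le_mul hpowK hMK).trans hKKn
  have hYM : K ^ 18 * M ≤ n := by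
    calc K ^ 18 * M ≤ K ^ 18 * K := Nat.mul_le_mul_left _ hMK
      _ = K ^ 19 := by ring
      _ ≤ K ^ 20 := Nat.pow_le_pow_right hK1 (by norm_num)
      _ ≤ n := hn1
  have hY3 : 3 ≤ K ^ 18 := by
    calc 3 ≤ 2 ^ 65 := by norm_num
      _ ≤ K := hK
      _ ≤ K ^ 18 := Nat.le_self_pow (by norm_num) K
  have hYn : K ^ 18 ≤ n := (Nat.pow_le_pow_right hK1 (by norm_num)).trans hn1
  have hY5 : 2 * n ^ 2 + 1 < (K ^ 18) ^ 5 := by
    have h1 : n ^ 2 ≤ (2 ^ 20 * K ^ 20) ^ 2 := Nat.pow_le_pow_left hn2 2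
    have h2 : (2 ^ 20 * K ^ 20) ^ 2 = 2 ^ 40 * K ^ 40 := by ring
    have h3 : (K ^ 18) ^ 5 = K ^ 49 * (K * K ^ 40) := by ring
    have h4 : 2 ^ 65 * K ^ 40 ≤ K * K ^ 40 := Nat.mul_le_mul_right _ hK
    have h5 : 1 * (K * K ^ 40) ≤ K ^ 49 * (K * K ^ 40) := Nat.mul_le_mul_right _ (hKpow 49)
    have h6 := hKpow 40
    rw [h3]
    rw [h2] at h1
    norm_num at h1 h4
    omega
  -- the five bad sets
  have hB1 := card_between M n x c z0 z hM hMz
  have hsum := sum_between z0 z a b ha1 ha hb hz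
  have hB2 := sq_part M n x c z0 (2 ^ 11 * K ^ 18) hM (by omega) hMz'
  have hB3 := card_large_sq K n x hK1 hn2 hx hx0
  have hB4 := many_part M n x c (K ^ 18) hM hYM hY3 hx hY5 (3000 * log (log n))
  have hB5 := smooth_part M n x c J hM hJn (ε * log n)
  have hFm : ∀ k ∈ F, k ∈ part M n x c := fun k hk => (hF k hk).1
  have hFI : ∀ k ∈ F, k ∈ Icc 1 n ∧ k % M = c := fun k hk =>
    ⟨(mem_part.1 (hFm k hk)).1, (mem_part.1 (hFm k hk)).2.1⟩
  let P1 : ℕ → Prop := fun k => ∃ p ∈ (Ioc z0 z).filter Nat.Prime, p ∣ 2 * k * x + 1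
  let P2 : ℕ → Prop := fun k => ∃ p ∈ (Icc 1 (2 ^ 11 * K ^ 18)).filter Nat.Prime,
      p ^ 2 ∣ 2 * k * x + 1
  let P3 : ℕ → Prop := fun k => ∃ p, 2 ^ 11 * K ^ 18 < p ∧ p ^ 2 ∣ 2 * k * x + 1
  let P4 : ℕ → Prop := fun k => 3000 * log (log n) < ((2 * k * x + 1).primeFactors.card : ℝ)
  let P5 : ℕ → Prop := fun k => ε * log n < sm (2 ^ (J + 1)) (2 * k * x + 1)
  have hB1' : ((F.filter P1).card : ℝ) ≤ (n : ℝ) / M *
      (∑ p ∈ (Ioc z0 z).filter Nat.Prime, (1 / (p : ℝ))) + z := by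
    refine le_trans ?_ hB1
    apply Nat.cast_le.2
    apply card_le_card
    intro k hk
    have hk1 := (mem_filter.1 hk).1
    have hk2 := (mem_filter.1 hk).2
    exact mem_filter.2 ⟨(hFI k hk1).1, (hFI k hk1).2, hk2⟩
  have hB2' : ((F.filter P2).card : ℝ) ≤ (n : ℝ) / M * (1 / z0) + ((2 ^ 11 * K ^ 18 : ℕ) : ℝ) := by
    refine le_trans ?_ hB2
    exact_mod_cast card_le_card (fun k hk => mem_filter.2 ⟨hFm k (mem_filter.1 hk).1,
      (mem_filter.1 hk).2⟩)
  have hB3' : (F.filter P3).card ≤ 2 ^ 54 * K ^ 18 := by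
    refine le_trans ?_ hB3
    exact card_le_card (fun k hk => mem_filter.2 ⟨(hFI k (mem_filter.1 hk).1).1,
      (mem_filter.1 hk).2⟩)
  have hLL : 0 ≤ 3000 * log (log n) := by linarith
  have hB4' : ((F.filter P4).card : ℝ) * (3000 * log (log n)) ≤
      2 * ((n : ℝ) / M) * (7 + 4 * log (log ((K ^ 18 : ℕ) : ℝ))) + 4 * ((n : ℝ) / M + 1) := by
    refine le_trans ?_ hB4
    apply mul_le_mul_of_nonneg_right _ hLL
    exact_mod_cast card_le_card (fun k hk => mem_filter.2 ⟨hFm k (mem_filter.1 hk).1,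
      (mem_filter.1 hk).2⟩)
  have hB5' : ((F.filter P5).card : ℝ) * (ε * log n) ≤ 12 * ((n : ℝ) / M) * (J + 1) := by
    refine le_trans ?_ hB5
    apply mul_le_mul_of_nonneg_right _ (by positivity)
    exact_mod_cast card_le_card (fun k hk => mem_filter.2 ⟨hFm k (mem_filter.1 hk).1,
      (mem_filter.1 hk).2⟩)
  have hcov : F ⊆ F.filter P1 ∪ (F.filter P2 ∪ (F.filter P3 ∪ (F.filter P4 ∪ F.filter P5))) := by
    intro k hk
    obtain ⟨hk1, hk2⟩ := hF k hk
    have hk3 := mem_part.1 hk1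
    rw [mem_union, mem_union, mem_union, mem_union, mem_filter, mem_filter, mem_filter,
      mem_filter, mem_filter]
    by_cases g1 : P1 k
    · exact Or.inl ⟨hk, g1⟩
    by_cases g2 : P2 k
    · exact Or.inr (Or.inl ⟨hk, g2⟩)
    by_cases g3 : P3 k
    · exact Or.inr (Or.inr (Or.inl ⟨hk, g3⟩))
    by_cases g4 : P4 k
    · exact Or.inr (Or.inr (Or.inr (Or.inl ⟨hk, g4⟩)))
    by_cases g5 : P5 k
    · exact Or.inr (Or.inr (Or.inr (Or.inr ⟨hk, g5⟩)))
    exfalso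
    apply hk2
    have f2 : ∀ p : ℕ, p.Prime → ¬ p ^ 2 ∣ 2 * k * x + 1 := by
      intro p hp hpd
      by_cases hle : p ≤ 2 ^ 11 * K ^ 18
      · exact g2 ⟨p, mem_filter.2 ⟨mem_Icc.2 ⟨hp.one_le, hle⟩, hp⟩, hpd⟩
      · exact g3 ⟨p, lt_of_not_ge hle, hpd⟩
    have hsqf : Squarefree (2 * k * x + 1) := by
      rw [Nat.squarefree_iff_prime_squarefree]
      intro p hp hpd
      exact f2 p hp (by rw [pow_two]; exact hpd)
    have f4 : ((2 * k * x + 1).primeFactors.card : ℝ) ≤ 3000 * log (log n) := le_of_not_gt g4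
    have f5 : sm (2 ^ (J + 1)) (2 * k * x + 1) ≤ ε * log n := le_of_not_gt g5
    refine ⟨hsqf, ?_, f4, ?_⟩
    · intro p hp hpd
      exact g1 ⟨p, hp, hpd⟩
    · obtain ⟨u, w, huw, hu, hw⟩ := split _ _ hsqf _ f5
      refine ⟨u, w, huw, ?_, ?_⟩
      · rw [rpow_def_of_pos hnpos, mul_comm]
        exact hu
      · refine hw.trans ?_
        have hk4 := mem_Icc.1 hk3.1
        apply card_rough (n + 1) J r _ (by omega) (by omega)
        · have h8 : k * x ≤ n * n := Nat.mul_le_mul hk4.2 hx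
          nlinarith
        · rw [← hJR]
          have h9 : (24000 / ε) * ((ε * log n / 1200 / 2) * 0.69) ≤ r * (k0 * log 2) := by
            apply mul_le_mul hr _ (by positivity) (by positivity)
            exact mul_le_mul hkge (by linarith) (by norm_num) (by positivity)
          have h10 : (24000 / ε) * ((ε * log n / 1200 / 2) * 0.69) = 6.9 * log n := by
            field_simp
            ring
          linarith
  -- the sizes
  have c1 : ((F.filter P1).card : ℝ) ≤ (n : ℝ) / M * (9 / 20) + z := by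
    have h1 := mul_le_mul_of_nonneg_left (hsum.trans hab) hN0.le
    linarith
  have c2 : ((F.filter P2).card : ℝ) ≤ (n : ℝ) / M * (1 / 1000) + 2 ^ 11 * K ^ 18 := by
    have h1 : (1 : ℝ) / z0 ≤ 1 / 1000 := by
      apply one_div_le_one_div_of_le (by norm_num)
      exact_mod_cast hz01
    have h2 := mul_le_mul_of_nonneg_left h1 hN0.le
    have h3 : ((2 ^ 11 * K ^ 18 : ℕ) : ℝ) = 2 ^ 11 * (K : ℝ) ^ 18 := by push_cast; ring
    rw [h3] at hB2'
    linarith
  have c3 : ((F.filter P3).card : ℝ) ≤ 2 ^ 54 * (K : ℝ) ^ 18 := by exact_mod_cast hB3'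
  have c4 : ((F.filter P4).card : ℝ) ≤ (n : ℝ) / M * (1 / 100) := by
    have h1 : log (log ((K ^ 18 : ℕ) : ℝ)) ≤ log (log n) := by
      have h2 : ((K ^ 18 : ℕ) : ℝ) ≤ n := by exact_mod_cast hYn
      have h3 : (3 : ℝ) ≤ ((K ^ 18 : ℕ) : ℝ) := by exact_mod_cast hY3
      have h4 : 0 < log ((K ^ 18 : ℕ) : ℝ) := log_pos (by linarith)
      exact log_le_log h4 (log_le_log (by linarith) h2)
    have h2 : 2 * ((n : ℝ) / M) * (7 + 4 * log (log ((K ^ 18 : ℕ) : ℝ))) ≤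
        2 * ((n : ℝ) / M) * (7 + 4 * log (log n)) := by
      apply mul_le_mul_of_nonneg_left _ (by positivity)
      linarith
    have h3 : ((F.filter P4).card : ℝ) * (3000 * log (log n)) ≤
        ((n : ℝ) / M * (1 / 100)) * (3000 * log (log n)) := by
      refine hB4'.trans ?_
      nlinarith
    exact le_of_mul_le_mul_right h3 (by linarith)
  have c5 : ((F.filter P5).card : ℝ) ≤ (n : ℝ) / M * (1 / 100) := by
    rw [← hJR] at hB5'
    have h5 : 12 * ((n : ℝ) / M) * k0 ≤ 12 * ((n : ℝ) / M) * (ε * log n / 1200) :=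
      mul_le_mul_of_nonneg_left hkle (by positivity)
    have h6 : ((F.filter P5).card : ℝ) * (ε * log n) ≤ ((n : ℝ) / M * (1 / 100)) * (ε * log n) := by
      have h7 : 12 * ((n : ℝ) / M) * (ε * log n / 1200) =
          ((n : ℝ) / M * (1 / 100)) * (ε * log n) := by ring
      linarith
    exact le_of_mul_le_mul_right h6 (by linarith)
  have hcard := (card_le_card hcov).trans ((card_union_le _ _).trans (Nat.add_le_add_left
    ((card_union_le _ _).trans (Nat.add_le_add_left ((card_union_le _ _).trans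
      (Nat.add_le_add_left (card_union_le _ _) _)) _)) _))
  have hcard' : (F.card : ℝ) ≤ (F.filter P1).card + ((F.filter P2).card + ((F.filter P3).card + ((F.filter P4).card + (F.filter P5).card))) := by
    exact_mod_cast hcard
  have h55 : (2 : ℝ) ^ 55 * (K : ℝ) ^ 18 = 2 ^ 54 * (K : ℝ) ^ 18 + 2 ^ 54 * (K : ℝ) ^ 18 := by ring
  have h11 : (2 : ℝ) ^ 11 * (K : ℝ) ^ 18 ≤ 2 ^ 54 * (K : ℝ) ^ 18 :=
    mul_le_mul_of_nonneg_right (by norm_num) hK18.le
  generalize (2 : ℝ) ^ 11 * (K : ℝ) ^ 18 = A1 at *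
  generalize (2 : ℝ) ^ 54 * (K : ℝ) ^ 18 = A2 at *
  generalize (2 : ℝ) ^ 55 * (K : ℝ) ^ 18 = A3 at *
  linarith

/-- all conditions at once -/
theorem super (ε : ℝ) (hε : 0 < ε) :
    ∃ (n0 : ℕ) (C : ℝ) (r : ℕ), ∀ n : ℕ, n0 ≤ n → HasCircular n (fun m =>
      Squarefree m ∧ (∀ p : ℕ, p.Prime → p ∣ m → (log n) ^ (6 / 5 : ℝ) < p) ∧
      (m.primeFactors.card : ℝ) ≤ C * log (log n) ∧
      ∃ u w : ℕ, m = u * w ∧ (u : ℝ) ≤ (n : ℝ) ^ ε ∧ w.primeFactors.card ≤ r) := by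
  classical
  set ε1 := min ε 1 with hε1d
  have hε1 : 0 < ε1 := lt_min hε one_pos
  have hε11 : ε1 ≤ 1 := min_le_right _ _
  have h1 : ∀ᶠ x : ℝ in Filter.atTop, 383 * log 2 ≤ log (log x) :=
    (Real.tendsto_log_atTop.comp Real.tendsto_log_atTop).eventually (Filter.eventually_ge_atTop _)
  have h2 : ∀ᶠ x : ℝ in Filter.atTop, ‖(log x) ^ (12 / 5 : ℝ)‖ ≤ (1 / 10) * ‖x ^ (1 : ℝ)‖ :=
    (isLittleO_log_rpow_rpow_atTop (12 / 5) one_pos).bound (by norm_num)
  have h2' : ∀ᶠ x : ℝ in Filter.atTop, 2400 / ε1 ≤ log x :=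
    Real.tendsto_log_atTop.eventually (Filter.eventually_ge_atTop _)
  obtain ⟨x0, hx0⟩ := Filter.eventually_atTop.1 ((h1.and h2).and h2')
  refine ⟨max 16 ⌈x0⌉₊, 3000, ⌈24000 / ε1⌉₊, ?_⟩
  intro n hn
  set r := ⌈24000 / ε1⌉₊ with hr
  have hrR : 24000 / ε1 ≤ (r : ℝ) := Nat.le_ceil _
  have hn16 : 16 ≤ n := (le_max_left _ _).trans hn
  have hnR : (0 : ℝ) < n := by
    have : 0 < n := by omega
    exact_mod_cast this
  obtain ⟨⟨h3, h4⟩, h4'⟩ := hx0 n (Nat.ceil_le.1 ((le_max_right _ _).trans hn))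
  have hlog2 : log 2 < 0.6931471808 := log_two_lt_d9
  have hlog2' : 0.6931471803 < log 2 := log_two_gt_d9
  set x := log n with hx
  have hx0' : 0 < x := by
    have : 0 < 2400 / ε1 := by positivity
    linarith
  have hεx : 2400 ≤ ε1 * x := by
    have h5 : ε1 * (2400 / ε1) ≤ ε1 * x := mul_le_mul_of_nonneg_left h4' hε1.le
    have h6 : ε1 * (2400 / ε1) = 2400 := by field_simp
    linarith
  have hxbig : (10 : ℝ) ^ 7 ≤ x := by
    have h5 : log ((2 : ℝ) ^ 383) ≤ log x := by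
      rw [log_pow]
      push_cast
      exact h3
    have h6 := (log_le_log_iff (by positivity) hx0').1 h5
    have h7 : (10 : ℝ) ^ 7 ≤ (2 : ℝ) ^ 24 := by norm_num
    have h8 : (2 : ℝ) ^ 24 ≤ (2 : ℝ) ^ 383 := pow_le_pow_right₀ (by norm_num) (by norm_num)
    exact h7.trans (h8.trans h6)
  set z := ⌊x ^ (6 / 5 : ℝ)⌋₊ with hz
  have hzle : (z : ℝ) ≤ x ^ (6 / 5 : ℝ) := Nat.floor_le (by positivity)
  have hzlt : x ^ (6 / 5 : ℝ) < z + 1 := Nat.lt_floor_add_one _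
  set L := Nat.log 2 n with hL
  have hLn : 2 ^ L ≤ n := Nat.pow_log_le_self 2 (by omega)
  have hnL : n < 2 ^ (L + 1) := Nat.lt_pow_succ_log_self (by norm_num) n
  have hxL : x ≤ (L + 1) * log 2 := by
    have h5 : (n : ℝ) ≤ 2 ^ (L + 1) := by exact_mod_cast hnL.le
    have h6 := log_le_log hnR h5
    rw [log_pow] at h6
    push_cast at h6
    exact h6
  have hLx : (L : ℝ) * log 2 ≤ x := by
    have h5 : (2 : ℝ) ^ L ≤ n := by exact_mod_cast hLn
    have h6 := log_le_log (by positivity) h5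
    rw [log_pow] at h6
    exact h6
  set t := L / 20 with ht
  set z0 := t / 2 with hz0
  have hLz0 : L ≤ 40 * z0 + 39 := by omega
  have hLz0R : (L : ℝ) ≤ 40 * z0 + 39 := by exact_mod_cast hLz0
  have hz0LR : 40 * (z0 : ℝ) ≤ L := by
    have : 40 * z0 ≤ L := by omega
    exact_mod_cast this
  have hLbig : (10 : ℝ) ^ 6 ≤ L := by nlinarith
  have hz01 : 1000 ≤ z0 := by
    have h5 : (1000 : ℝ) ≤ z0 := by linarith
    exact_mod_cast h5
  have hz0x : x / 64 ≤ z0 := by nlinarith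
  have hz0z : z0 ≤ z := by
    apply Nat.le_floor
    have h5 : (z0 : ℝ) ≤ x := by nlinarith
    have h6 : x ≤ x ^ (6 / 5 : ℝ) := by
      conv_lhs => rw [← rpow_one x]
      exact rpow_le_rpow_of_exponent_le (by linarith) (by norm_num)
    linarith
  set a := Nat.log 2 z0 with ha
  set b := Nat.log 2 z with hb
  have ha1 : 1 ≤ a := Nat.le_log_of_pow_le (by norm_num) (by omega)
  have ha2 : 2 ^ a ≤ z0 := Nat.pow_log_le_self 2 (by omega)
  have ha3 : z0 < 2 ^ (a + 1) := Nat.lt_pow_succ_log_self (by norm_num) z0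
  have hb1 : z < 2 ^ (b + 1) := Nat.lt_pow_succ_log_self (by norm_num) z
  have hb2 : 2 ^ b ≤ z := Nat.pow_log_le_self 2 (by omega)
  have haR : (1 : ℝ) ≤ a := by exact_mod_cast ha1
  have hblog : (b : ℝ) * log 2 ≤ 6 / 5 * log x := by
    have h5 : (2 : ℝ) ^ b ≤ x ^ (6 / 5 : ℝ) := by
      refine le_trans ?_ hzle
      exact_mod_cast hb2
    have h6 := log_le_log (by positivity) h5
    rw [log_pow, log_rpow hx0'] at h6
    exact h6
  have halog : log x - 6 * log 2 ≤ (a + 1) * log 2 := by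
    have h5 : x / 64 ≤ (2 : ℝ) ^ (a + 1) := by
      refine hz0x.trans ?_
      exact_mod_cast ha3.le
    have h6 := log_le_log (by positivity) h5
    rw [log_pow, log_div hx0'.ne' (by norm_num), show (64 : ℝ) = 2 ^ 6 by norm_num, log_pow] at h6
    push_cast at h6
    exact h6
  have hab : ((b : ℝ) + 1 - a) * (2 / a) ≤ 9 / 20 := by
    have h5 : 40 * (b : ℝ) + 40 ≤ 49 * a := by
      have h6 : (40 * (b : ℝ) + 40) * log 2 ≤ (49 * a) * log 2 := by nlinarith
      exact le_of_mul_le_mul_right h6 (by linarith)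
    rw [show ((b : ℝ) + 1 - a) * (2 / a) = (2 * ((b : ℝ) + 1 - a)) / a by ring,
      div_le_iff₀ (by linarith)]
    linarith
  -- the scale `K`
  set K := 2 ^ t with hKd
  have ht65 : 65 ≤ t := by omega
  have hK65 : 2 ^ 65 ≤ K := Nat.pow_le_pow_right (by norm_num) ht65
  have hKpos : 0 < K := Nat.pow_pos (by norm_num)
  have hn1 : K ^ 20 ≤ n := by
    calc K ^ 20 = 2 ^ (t * 20) := by rw [hKd, ← pow_mul]
      _ ≤ 2 ^ L := Nat.pow_le_pow_right (by norm_num) (by omega)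
      _ ≤ n := hLn
  have hn2 : n ≤ 2 ^ 20 * K ^ 20 := by
    calc n ≤ 2 ^ (L + 1) := hnL.le
      _ ≤ 2 ^ (20 + t * 20) := Nat.pow_le_pow_right (by norm_num) (by omega)
      _ = 2 ^ 20 * K ^ 20 := by rw [pow_add, hKd, ← pow_mul]
  set S := (range (z0 + 1)).filter Nat.Prime with hS
  have hSp : ∀ p ∈ S, p.Prime := fun p hp => (mem_filter.1 hp).2
  set M := ∏ p ∈ S, p with hMdef
  have hM : 0 < M := prod_pos fun p hp => (hSp p hp).pos
  have hM4 : M ≤ 4 ^ z0 := primorial_le_four_pow z0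
  have hMK : M ≤ K := by
    refine hM4.trans ?_
    calc 4 ^ z0 = 2 ^ (2 * z0) := by rw [pow_mul]; norm_num
      _ ≤ 2 ^ t := Nat.pow_le_pow_right (by norm_num) (by omega)
  have hMR : (1 : ℝ) ≤ M := by exact_mod_cast hM
  have hMz : ∀ p : ℕ, p.Prime → z0 < p → ¬ p ∣ M := by
    intro p hp hlt hpd
    obtain ⟨q, hq, hpq⟩ := (hp.prime.dvd_finsetProd_iff _).1 hpd
    have h1 : p = q := (Nat.prime_dvd_prime_iff_eq hp (hSp q hq)).1 hpq
    have h2 := mem_range.1 (mem_filter.1 hq).1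
    omega
  have hMz' : ∀ p : ℕ, p.Prime → ¬ p ∣ M → z0 < p := by
    intro p hp hpM
    by_contra hcon
    exact hpM (dvd_prod_of_mem _ (mem_filter.2 ⟨mem_range.2 (by omega), hp⟩))
  have hMS : ∀ p : ℕ, p.Prime → p ∣ M → p ∈ S := by
    intro p hp hpd
    refine mem_filter.2 ⟨mem_range.2 ?_, hp⟩
    by_contra hcon
    exact hMz p hp (by omega) hpd
  have hex := exists_partner S hSp
  have hcast := eq_of_casts S hSp
  choose τ hτlt hτ using hex
  rw [← hMdef] at hτlt hcast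
  have hinv : ∀ r, r < M → τ (τ r) = r := by
    intro r hr
    apply hcast _ _ (hτlt _) hr
    intro p hp
    have : Fact p.Prime := ⟨hSp p hp⟩
    rw [hτ _ p hp, hτ _ p hp, inv_neg, inv_inv, neg_neg]
  have hτ0 : τ 0 = 0 := by
    apply hcast _ _ (hτlt _) hM
    intro p hp
    have : Fact p.Prime := ⟨hSp p hp⟩
    rw [hτ _ p hp]
    simp
  have hlocal : ∀ x y, Allowed M τ x y → ∀ p ∈ S, ¬ p ∣ 2 * x * y + 1 :=
    fun x y h => local_ok S hSp τ hτ x y h
  have hKK : K * K ≤ n := by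
    calc K * K = K ^ 2 := by ring
      _ ≤ K ^ 20 := Nat.pow_le_pow_right hKpos (by norm_num)
      _ ≤ n := hn1
  obtain ⟨σ0, hc0, hT0, hD0⟩ := init M n hM ((Nat.mul_le_mul hMK hMK).trans hKK) τ hτlt hinv hτ0
  -- sizes
  have hz2 : 10 * z ^ 2 ≤ n := by
    have h5 : (z : ℝ) ^ 2 ≤ x ^ (12 / 5 : ℝ) := by
      have h6 : (z : ℝ) ^ 2 ≤ (x ^ (6 / 5 : ℝ)) ^ 2 := by gcongr
      rw [← rpow_natCast, ← rpow_natCast, ← rpow_mul hx0'.le] at h6
      rw [← rpow_natCast]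
      norm_num at h6 ⊢
      exact h6
    rw [norm_of_nonneg (by positivity), norm_of_nonneg (by positivity), rpow_one] at h4
    have h7 : 10 * (z : ℝ) ^ 2 ≤ n := by linarith
    exact_mod_cast h7
  have hzK : 1000 * z ≤ K ^ 19 := by
    apply (Nat.pow_le_pow_iff_left (two_ne_zero)).1
    have h5 : 2 ^ 37 * K ^ 20 ≤ K ^ 38 := by
      calc 2 ^ 37 * K ^ 20 ≤ K ^ 18 * K ^ 20 := by
            apply Nat.mul_le_mul_right
            calc 2 ^ 37 ≤ 2 ^ 65 := by norm_num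
              _ ≤ K := hK65
              _ ≤ K ^ 18 := Nat.le_self_pow (by norm_num) K
        _ = K ^ 38 := by ring
    calc (1000 * z) ^ 2 = 10 ^ 5 * (10 * z ^ 2) := by ring
      _ ≤ 10 ^ 5 * (2 ^ 20 * K ^ 20) := Nat.mul_le_mul_left _ (hz2.trans hn2)
      _ ≤ 2 ^ 17 * (2 ^ 20 * K ^ 20) := Nat.mul_le_mul_right _ (by norm_num)
      _ = 2 ^ 37 * K ^ 20 := by ring
      _ ≤ K ^ 38 := h5
      _ = (K ^ 19) ^ 2 := by ring
  have hKlog : x ≤ 1200 * log K := by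
    have h5 : log (K : ℝ) = t * log 2 := by
      rw [hKd]
      push_cast
      rw [log_pow]
    have h6 : (L : ℝ) ≤ 20 * t + 19 := by
      have : L ≤ 20 * t + 19 := by omega
      exact_mod_cast this
    have h7 : (65 : ℝ) ≤ t := by exact_mod_cast ht65
    rw [h5]
    nlinarith
  have hLL : 1 ≤ log x := by linarith
  set β := ⌊(48 / 100 : ℝ) * ((n : ℝ) / M)⌋₊ with hβ
  have hnM0 : (0 : ℝ) ≤ (n : ℝ) / M := by positivity
  have hβR : (β : ℝ) ≤ (48 / 100 : ℝ) * ((n : ℝ) / M) := Nat.floor_le (by positivity)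
  have hbig : 2 * M + 1 + 2 * β < n / M := by
    have h1 : (n : ℝ) / M < ((n / M : ℕ) : ℝ) + 1 := by
      rw [div_lt_iff₀ (by positivity)]
      have h2 := Nat.lt_mul_div_succ n hM
      have h2' : (n : ℝ) < ((M * (n / M + 1) : ℕ) : ℝ) := by exact_mod_cast h2
      push_cast at h2'
      linarith
    have h3 : ((2 * M + 1 + 2 * β : ℕ) : ℝ) < ((n / M : ℕ) : ℝ) := by
      push_cast
      have h4 : 1000 * (M : ℝ) ≤ n / M := by
        rw [le_div_iff₀ (by positivity)]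
        have h5 : 1000 * M * M ≤ n := by
          calc 1000 * M * M ≤ K * K * K := by
                apply Nat.mul_le_mul _ hMK
                apply Nat.mul_le_mul _ hMK
                exact le_trans (by norm_num) hK65
            _ = K ^ 3 := by ring
            _ ≤ K ^ 20 := Nat.pow_le_pow_right hKpos (by norm_num)
            _ ≤ n := hn1
        exact_mod_cast h5
      linarith
    exact_mod_cast h3
  obtain ⟨σ, hc, hσ⟩ := struct M n (n / M) (2 * M) β hM τ hτlt hinv hτ0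
    (fun x y => Nice2 ε1 r n z0 z (2 * x * y + 1))
    (fun x y h => by
      have h1 : 2 * y * x + 1 = 2 * x * y + 1 := by ring
      rw [h1]
      exact h)
    (fun r hr F hF => class_card M n r hM hr F hF)
    (by
      intro w hw c hc hcx F hF
      apply Nat.le_floor
      have hw' := mem_Icc.1 hw
      apply bad_count ε1 hε1 hε11 M n w c z0 z a b K r hM hMK hz01 hMz hMz' ha1 ha2 hb1 hz0z hab
        hK65 hn1 hn2 hw'.1 hw'.2 hzK hLL hεx hKlog hrR F
      intro y hy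
      obtain ⟨h1, h2, h3⟩ := hF y hy
      have h4 : 2 * y * w + 1 = 2 * w * y + 1 := by ring
      refine ⟨mem_part.2 ⟨h1, h2, ?_⟩, ?_⟩
      · intro p hp hpd
        rw [h4]
        apply hlocal w y _ p (hMS p hp hpd)
        rcases hcx with h | h | h
        · left
          rw [h2, h]
        · exact Or.inr (Or.inl h)
        · right
          right
          rw [h] at h2
          exact Nat.dvd_of_mod_eq_zero h2
      · rw [h4]
        exact h3)
    hbig σ0 hc0 hT0 hD0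
  have hn0 : 1 ≤ n := by omega
  apply hasCircular_of n hn0
  refine ⟨σ, hc.bij, hc.per, fun i hi => ?_⟩
  obtain ⟨h1, h2, h2b, h3, u, w, h4, h5, h6⟩ := hσ i hi
  refine ⟨h2, ?_, h3, u, w, h4, h5.trans ?_, h6⟩
  · intro p hp hpd
    have hzp : z < p := by
      by_contra hcon
      by_cases hpz : p ≤ z0
      · exact hlocal _ _ h1 p (mem_filter.2 ⟨mem_range.2 (by omega), hp⟩) hpd
      · exact h2b p (mem_filter.2 ⟨mem_Ioc.2 ⟨by omega, by omega⟩, hp⟩) hpd
    have h6 : (z : ℝ) + 1 ≤ p := by exact_mod_cast hzp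
    linarith
  · apply rpow_le_rpow_of_exponent_le _ (min_le_left _ _)
    have : (1 : ℝ) ≤ ((n : ℕ) : ℝ) := by exact_mod_cast hn0
    exact this

end Pool.Agent.H34.CR
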